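import Mathlib
import Pool.Agent.Helper923.PPS.BT

set_option autoImplicit false

open Finset Filter

namespace Pool.Agent.Helper564.E451


theorem E451F_card (A B : ℝ) (h : 0 ≤ B - A + 1) :
    ((Finset.Icc ⌈A⌉ ⌊B⌋).card : ℝ) ≤ B - A + 1 := by
  rw [Int.card_Icc]
  rcases le_total 0 (⌊B⌋ + 1 - ⌈A⌉) with h1 | h1
  · have h2 : (((⌊B⌋ + 1 - ⌈A⌉).toNat : ℤ) : ℝ) = ((⌊B⌋ + 1 - ⌈A⌉ : ℤ) : ℝ) := by
      rw [Int.toNat_of_nonneg h1]
    have h3 : (((⌊B⌋ + 1 - ⌈A⌉).toNat : ℕ) : ℝ) = ((⌊B⌋ + 1 - ⌈A⌉ : ℤ) : ℝ) := by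
      rw [← h2]
      norm_cast
    rw [h3]
    push_cast
    have h4 := Int.floor_le B
    have h5 := Int.le_ceil A
    linarith
  · rw [Int.toNat_of_nonpos h1]
    simpa using h

/-- the position of the primes attached to one integer -/
theorem E451F_pos (η : ℝ) (hη : 0 < η) (hη1 : η ≤ 1 / 100) (K n p z : ℝ) (hK : 0 < K)
    (hn : 4 / η * K ≤ n) (hp1 : K ≤ p) (hp2 : p ≤ (1 + η) * K) (hz : |n / p - z| ≤ η) :
    n / K * (1 - η) - η ≤ z ∧ z ≤ n / K + η ∧ n / (z + η) ≤ p ∧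
      p ≤ n / (z + η) + 4 * η * K ^ 2 / n := by
  have hp : 0 < p := by linarith
  have h4 : 400 ≤ 4 / η := by
    rw [le_div_iff₀ hη]
    linarith
  have hn0 : 400 * K ≤ n := by nlinarith
  have hnpos : 0 < n := by linarith
  have hX : 400 ≤ n / K := by
    rw [le_div_iff₀ hK]
    exact hn0
  obtain ⟨hz1, hz2⟩ := abs_le.mp hz
  have h5 : n / K * (1 - η) ≤ n / p := by
    rw [le_div_iff₀ hp, div_mul_eq_mul_div, div_mul_eq_mul_div, div_le_iff₀ hK]
    have h6 : n * (1 - η) * p ≤ n * (1 - η) * ((1 + η) * K) := by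
      refine mul_le_mul_of_nonneg_left hp2 (mul_nonneg hnpos.le (by linarith))
    have h7 : n * (1 - η) * ((1 + η) * K) = n * K - η ^ 2 * (n * K) := by ring
    have h8 : 0 ≤ η ^ 2 * (n * K) := by positivity
    linarith
  have h6 : n / p ≤ n / K := div_le_div_of_nonneg_left hnpos.le hK hp1
  have hzl : n / K * (1 - η) - η ≤ z := by linarith
  have hzu : z ≤ n / K + η := by linarith
  have hz98 : 98 / 100 * (n / K) ≤ z := by nlinarith
  have hzpos : 0 < z - η := by linarith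
  have hzpos' : 0 < z + η := by linarith
  have hw : n / (z + η) ≤ p := by
    rw [div_le_iff₀ hzpos']
    have h7 : n / p ≤ z + η := by linarith
    rw [div_le_iff₀ hp] at h7
    linarith
  have hw2 : p * (z - η) ≤ n := by
    have h7 : z - η ≤ n / p := by linarith
    rw [le_div_iff₀ hp] at h7
    linarith
  refine ⟨hzl, hzu, hw, ?_⟩
  set w := n / (z + η) with hwdef
  have hwe : w * (z + η) = n := div_mul_cancel₀ n hzpos'.ne'
  have h7 : (p - w) * ((z - η) * (z + η)) ≤ 2 * η * n := by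
    have h8 : p * (z - η) * (z + η) ≤ n * (z + η) := mul_le_mul_of_nonneg_right hw2 hzpos'.le
    have h9 : w * (z + η) * (z - η) = n * (z - η) := by rw [hwe]
    nlinarith
  have hzz : 0 < (z - η) * (z + η) := mul_pos hzpos hzpos'
  have h8 : (n / K) ^ 2 ≤ 2 * ((z - η) * (z + η)) := by
    have h9 : (98 / 100 * (n / K)) ^ 2 ≤ z ^ 2 := pow_le_pow_left₀ (by positivity) hz98 2
    have h10 : η ^ 2 ≤ 1 := by nlinarith
    have h11 : (400 : ℝ) ^ 2 ≤ (n / K) ^ 2 := pow_le_pow_left₀ (by norm_num) hX 2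
    nlinarith
  have h9 : 2 * η * n ≤ 4 * η * K ^ 2 / n * ((z - η) * (z + η)) := by
    rw [div_mul_eq_mul_div, le_div_iff₀ hnpos]
    have h10 : n ^ 2 ≤ K ^ 2 * (2 * ((z - η) * (z + η))) := by
      have h11 : n ^ 2 = K ^ 2 * (n / K) ^ 2 := by
        rw [div_pow]
        field_simp
      rw [h11]
      exact mul_le_mul_of_nonneg_left h8 (sq_nonneg K)
    have h12 : 2 * η * n ^ 2 ≤ 2 * η * (K ^ 2 * (2 * ((z - η) * (z + η)))) :=
      mul_le_mul_of_nonneg_left h10 (by positivity)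
    calc 2 * η * n * n = 2 * η * n ^ 2 := by ring
      _ ≤ 2 * η * (K ^ 2 * (2 * ((z - η) * (z + η)))) := h12
      _ = 4 * η * K ^ 2 * ((z - η) * (z + η)) := by ring
  have h10 : p - w ≤ 4 * η * K ^ 2 / n := le_of_mul_le_mul_right (h7.trans h9) hzz
  linarith

open scoped Classical in
theorem E451F_cover (η : ℝ) (hη : 0 < η) (hη1 : η ≤ 1 / 100) (k n N : ℕ) (hk : 0 < k)
    (hn : 4 / η * k ≤ (n : ℝ)) (hN : 4 * η * (k : ℝ) ^ 2 / n < N) (M : ℝ) (hM0 : 0 ≤ M)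
    (hM : ∀ a : ℕ, (((Finset.range N).filter (fun j => (a + j * 1).Prime)).card : ℝ) ≤ M) :
    (((Finset.Ioc k ⌊(1 + η) * k⌋₊).filter
      (fun p : ℕ => p.Prime ∧ ∃ z : ℤ, |(n : ℝ) / p - z| ≤ η)).card : ℝ) ≤
      2 * η * (n / k) * M := by
  have hK : (0 : ℝ) < k := by exact_mod_cast hk
  have h4 : 400 ≤ 4 / η := by
    rw [le_div_iff₀ hη]
    linarith
  have hX : 4 / η ≤ (n : ℝ) / k := by
    rw [le_div_iff₀ hK]
    exact hn
  have hηX : 4 ≤ η * ((n : ℝ) / k) := by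
    rw [div_le_iff₀ hη] at hX
    linarith
  set Z : Finset ℤ := Finset.Icc ⌈(n : ℝ) / k * (1 - η) - η⌉ ⌊(n : ℝ) / k + η⌋ with hZ
  have hZc : (Z.card : ℝ) ≤ 2 * η * (n / k) := by
    have h1 := E451F_card ((n : ℝ) / k * (1 - η) - η) ((n : ℝ) / k + η) (by
      have h2 : (n : ℝ) / k + η - ((n : ℝ) / k * (1 - η) - η) + 1 =
        η * ((n : ℝ) / k) + 2 * η + 1 := by ring
      rw [h2]
      linarith)
    refine h1.trans ?_
    have h2 : (n : ℝ) / k + η - ((n : ℝ) / k * (1 - η) - η) + 1 =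
      η * ((n : ℝ) / k) + 2 * η + 1 := by ring
    rw [h2]
    linarith
  set P : ℤ → Finset ℕ := fun z => ((Finset.range N).filter
    (fun j => (⌈(n : ℝ) / (z + η)⌉₊ + j * 1).Prime)).image
      (fun j => ⌈(n : ℝ) / (z + η)⌉₊ + j * 1) with hP
  have hsub : (Finset.Ioc k ⌊(1 + η) * k⌋₊).filter
      (fun p : ℕ => p.Prime ∧ ∃ z : ℤ, |(n : ℝ) / p - z| ≤ η) ⊆ Z.biUnion P := by
    intro p hp
    rw [Finset.mem_filter, Finset.mem_Ioc] at hp
    obtain ⟨⟨hp1, hp2⟩, hpp, z, hz⟩ := hp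
    have hp1' : (k : ℝ) ≤ p := by exact_mod_cast hp1.le
    have hp2' : (p : ℝ) ≤ (1 + η) * k := by
      have h1 : ((⌊(1 + η) * (k : ℝ)⌋₊ : ℕ) : ℝ) ≤ (1 + η) * k := Nat.floor_le (by positivity)
      have h2 : (p : ℝ) ≤ ((⌊(1 + η) * (k : ℝ)⌋₊ : ℕ) : ℝ) := by exact_mod_cast hp2
      linarith
    obtain ⟨hz1, hz2, hz3, hz4⟩ := E451F_pos η hη hη1 k n p z hK hn hp1' hp2' hz
    rw [Finset.mem_biUnion]
    refine ⟨z, ?_, ?_⟩
    · rw [hZ, Finset.mem_Icc]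
      exact ⟨Int.ceil_le.mpr hz1, Int.le_floor.mpr hz2⟩
    · have h1 : ⌈(n : ℝ) / (z + η)⌉₊ ≤ p := Nat.ceil_le.mpr hz3
      have h2 : p < ⌈(n : ℝ) / (z + η)⌉₊ + N := by
        have h3 : (p : ℝ) < (⌈(n : ℝ) / (z + η)⌉₊ : ℕ) + (N : ℝ) := by
          have h4 := Nat.le_ceil ((n : ℝ) / (z + η))
          linarith
        exact_mod_cast h3
      rw [hP, Finset.mem_image]
      refine ⟨p - ⌈(n : ℝ) / (z + η)⌉₊, ?_, by omega⟩
      rw [Finset.mem_filter, Finset.mem_range]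
      refine ⟨by omega, ?_⟩
      have h5 : ⌈(n : ℝ) / (z + η)⌉₊ + (p - ⌈(n : ℝ) / (z + η)⌉₊) * 1 = p := by omega
      rw [h5]
      exact hpp
  have h1 : (((Finset.Ioc k ⌊(1 + η) * k⌋₊).filter
      (fun p : ℕ => p.Prime ∧ ∃ z : ℤ, |(n : ℝ) / p - z| ≤ η)).card : ℝ) ≤
      ∑ z ∈ Z, ((P z).card : ℝ) := by
    have h2 := (Finset.card_le_card hsub).trans Finset.card_biUnion_le
    exact_mod_cast h2
  have h2 : ∀ z ∈ Z, ((P z).card : ℝ) ≤ M := by
    intro z _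
    refine le_trans ?_ (hM ⌈(n : ℝ) / (z + η)⌉₊)
    exact_mod_cast Finset.card_image_le
  refine h1.trans ((Finset.sum_le_sum h2).trans ?_)
  rw [Finset.sum_const, nsmul_eq_mul]
  exact mul_le_mul_of_nonneg_right hZc hM0

open scoped Classical in
/-- Brun-Titchmarsh range. -/
theorem bt_range : ∃ η₀ : ℝ, 0 < η₀ ∧ η₀ ≤ 1 ∧ ∀ η : ℝ, 0 < η → η ≤ η₀ → ∀ᶠ k : ℕ in atTop, ∀ n : ℕ,
    4 / η * k ≤ (n : ℝ) → (n : ℝ) ≤ (k : ℝ) ^ ((3 : ℝ) / 2) →
    (((Finset.Ioc k ⌊(1 + η) * k⌋₊).filter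
      (fun p : ℕ => p.Prime ∧ ∃ z : ℤ, |(n : ℝ) / p - z| ≤ η)).card : ℝ) < η / 2 * k / Real.log k := by
  obtain ⟨C, hC1, hC⟩ := Pool.Agent.Helper923.PPS.brun_titchmarsh
  have hC0 : 0 < C := by linarith
  refine ⟨1 / (100 * C), by positivity, ?_, ?_⟩
  · rw [div_le_one (by positivity)]
    linarith
  intro η hη hη0
  have hη1 : η ≤ 1 / 100 := by
    refine hη0.trans ?_
    refine div_le_div_of_nonneg_left zero_le_one (by norm_num) ?_
    linarith
  have hηC : 100 * C * η ≤ 1 := by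
    rw [le_div_iff₀ (by positivity)] at hη0
    linarith
  have t1 : Tendsto (fun k : ℕ => (k : ℝ) ^ ((1 : ℝ) / 6)) atTop atTop :=
    (tendsto_rpow_atTop (by norm_num : (0 : ℝ) < 1 / 6)).comp tendsto_natCast_atTop_atTop
  have t2 : Tendsto (fun k : ℕ => (k : ℝ) ^ ((1 : ℝ) / 2)) atTop atTop :=
    (tendsto_rpow_atTop (by norm_num : (0 : ℝ) < 1 / 2)).comp tendsto_natCast_atTop_atTop
  filter_upwards [t1.eventually_ge_atTop (1 / (4 * η)), t2.eventually_ge_atTop (1 / (2 * η)),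
    eventually_ge_atTop 2] with k hk1 hk2 hk
  intro n hn hn2
  have hkR : (2 : ℝ) ≤ k := by exact_mod_cast hk
  have hK : (0 : ℝ) < k := by linarith
  have hlogk : 0 < Real.log k := Real.log_pos (by linarith)
  have hnpos : (0 : ℝ) < n := by
    have : 0 < 4 / η * (k : ℝ) := by positivity
    linarith
  have hk1' : 1 ≤ 4 * η * (k : ℝ) ^ ((1 : ℝ) / 6) := by
    rw [div_le_iff₀ (by positivity)] at hk1
    linarith
  have hk2' : 2 ≤ 4 * η * (k : ℝ) ^ ((1 : ℝ) / 2) := by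
    rw [div_le_iff₀ (by positivity)] at hk2
    linarith
  -- the length of the intervals
  set y : ℝ := 4 * η * (k : ℝ) ^ 2 / n with hy
  have hy1 : 4 * η * (k : ℝ) ^ ((1 : ℝ) / 2) ≤ y := by
    rw [hy, le_div_iff₀ hnpos]
    have h1 : (k : ℝ) ^ ((1 : ℝ) / 2) * (k : ℝ) ^ ((3 : ℝ) / 2) = (k : ℝ) ^ 2 := by
      rw [← Real.rpow_add hK]
      norm_num
    have h2 : (k : ℝ) ^ ((1 : ℝ) / 2) * n ≤ (k : ℝ) ^ 2 := by
      rw [← h1]
      exact mul_le_mul_of_nonneg_left hn2 (by positivity)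
    have h3 := mul_le_mul_of_nonneg_left h2 (by positivity : 0 ≤ 4 * η)
    linarith
  have hy2 : 2 ≤ y := hk2'.trans hy1
  have hy3 : (k : ℝ) ^ ((1 : ℝ) / 3) ≤ y := by
    refine le_trans ?_ hy1
    have h1 : (k : ℝ) ^ ((1 : ℝ) / 2) = (k : ℝ) ^ ((1 : ℝ) / 6) * (k : ℝ) ^ ((1 : ℝ) / 3) := by
      rw [← Real.rpow_add hK]
      norm_num
    rw [h1]
    have h2 : 0 ≤ (k : ℝ) ^ ((1 : ℝ) / 3) := by positivity
    have h3 := mul_le_mul_of_nonneg_right hk1' h2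
    linarith
  have hN1 : y < ((⌊y⌋₊ + 2 : ℕ) : ℝ) := by
    push_cast
    have := Nat.lt_floor_add_one y
    linarith
  have hN2 : ((⌊y⌋₊ + 2 : ℕ) : ℝ) ≤ 2 * y := by
    push_cast
    have := Nat.floor_le (by linarith : 0 ≤ y)
    linarith
  have hN3 : 2 ≤ ⌊y⌋₊ + 2 := by omega
  generalize ⌊y⌋₊ + 2 = N at hN1 hN2 hN3
  have hlogN : Real.log k / 3 ≤ Real.log N := by
    have h1 : Real.log ((k : ℝ) ^ ((1 : ℝ) / 3)) = Real.log k / 3 := by
      rw [Real.log_rpow hK]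
      ring
    rw [← h1]
    exact Real.log_le_log (by positivity) (by linarith)
  have hlogN0 : 0 < Real.log N := by linarith
  have hM : C * N / Real.log N ≤ 6 * C * y / Real.log k := by
    rw [div_le_div_iff₀ hlogN0 hlogk]
    have h1 : C * N * Real.log k ≤ C * (2 * y) * Real.log k :=
      mul_le_mul_of_nonneg_right (mul_le_mul_of_nonneg_left hN2 hC0.le) hlogk.le
    have h2 : 6 * C * y * (Real.log k / 3) ≤ 6 * C * y * Real.log N :=
      mul_le_mul_of_nonneg_left hlogN (by positivity)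
    linarith
  have hcov := E451F_cover η hη hη1 k n N (by omega) hn hN1 (6 * C * y / Real.log k)
    (by positivity) (fun a => (hC a 1 N hN3 (Or.inl rfl)).trans hM)
  refine hcov.trans_lt ?_
  have h1 : 2 * η * ((n : ℝ) / k) * (6 * C * y / Real.log k) =
      (48 * C * η) * (η * k / Real.log k) := by
    rw [hy]
    field_simp
    ring
  have h2 : η / 2 * k / Real.log k = (1 / 2) * (η * k / Real.log k) := by ring
  rw [h1, h2]
  refine mul_lt_mul_of_pos_right ?_ (by positivity)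
  linarith

end Pool.Agent.Helper564.E451
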