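import Mathlib

set_option autoImplicit false

open Finset Polynomial

namespace Pool.Agent.Helper564.E451

/-- `e x = exp (2 π i x)` -/
noncomputable def e (x : ℝ) : ℂ := Complex.exp (2 * Real.pi * Complex.I * x)

theorem wl_norm (x : ℝ) : ‖e x‖ = 1 := by
  unfold e
  rw [show (2 * Real.pi * Complex.I * x : ℂ) = ((2 * Real.pi * x : ℝ) : ℂ) * Complex.I by
    push_cast; ring]
  exact Complex.norm_exp_ofReal_mul_I _

theorem wl_add (x y : ℝ) : e (x + y) = e x * e y := by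
  unfold e
  rw [← Complex.exp_add]; congr 1; push_cast; ring

theorem wl_conj (x : ℝ) : (starRingEnd ℂ) (e x) = e (-x) := by
  unfold e
  rw [← Complex.exp_conj]
  congr 1
  simp only [map_mul, Complex.conj_I, Complex.conj_ofReal, map_ofNat]
  push_cast; ring

theorem wl_nat (b : ℝ) (t : ℕ) : e (b * t) = e b ^ t := by
  unfold e
  rw [← Complex.exp_nat_mul]; congr 1; push_cast; ring

theorem wl_sub_one (b : ℝ) (h2 : |b| ≤ 1 / 2) : 4 * |b| ≤ ‖e b - 1‖ := by
  have h1 : e b - 1 = e (b / 2) * (2 * Complex.I * (Real.sin (Real.pi * b) : ℝ)) := by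
    have h3 : e b = e (b / 2) * e (b / 2) := by rw [← wl_add]; congr 1; ring
    have h4 : (1 : ℂ) = e (b / 2) * e (-(b / 2)) := by
      rw [← wl_add]; simp [e]
    have h5 : (2 * Complex.I * (Real.sin (Real.pi * b) : ℝ) : ℂ) = e (b / 2) - e (-(b / 2)) := by
      unfold e
      rw [Complex.ofReal_sin, Complex.sin]
      have e1 : (2 * Real.pi * Complex.I * ((b / 2 : ℝ) : ℂ)) = ((Real.pi * b : ℝ) : ℂ) * Complex.I := by
        push_cast; ring
      have e2 : (2 * Real.pi * Complex.I * ((-(b / 2) : ℝ) : ℂ)) = -((Real.pi * b : ℝ) : ℂ) * Complex.I := by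
        push_cast; ring
      rw [e1, e2]
      have := Complex.I_sq
      linear_combination (Complex.exp (-((Real.pi * b : ℝ) : ℂ) * Complex.I) -
        Complex.exp (((Real.pi * b : ℝ) : ℂ) * Complex.I)) * Complex.I_sq
    calc e b - 1 = e (b / 2) * e (b / 2) - e (b / 2) * e (-(b / 2)) := by rw [← h3, ← h4]
      _ = _ := by rw [h5]; ring
  rw [h1, norm_mul, wl_norm, one_mul, norm_mul, norm_mul, Complex.norm_I, Complex.norm_real,
    Real.norm_eq_abs]
  have hπ := Real.pi_pos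
  have h6 : |Real.sin (Real.pi * b)| = Real.sin |Real.pi * b| := by
    apply Real.abs_sin_eq_sin_abs_of_abs_le_pi
    rw [abs_mul, abs_of_pos hπ]; nlinarith [abs_nonneg b]
  have h7 := Real.mul_le_sin (abs_nonneg (Real.pi * b)) (by
    rw [abs_mul, abs_of_pos hπ]; nlinarith [abs_nonneg b])
  rw [h6]
  have h8 : 2 / Real.pi * |Real.pi * b| = 2 * |b| := by
    rw [abs_mul, abs_of_pos hπ]; field_simp
  rw [h8] at h7
  simp only [Complex.norm_ofNat, mul_one]
  linarith

theorem wl_vdc_id (f : ℕ → ℂ) (N : ℕ) :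
    ‖∑ t ∈ range N, f t‖ ^ 2 = ∑ t ∈ range N, ‖f t‖ ^ 2 +
      2 * (∑ h ∈ range N, ∑ t ∈ range (N - 1 - h), f (t + h + 1) * (starRingEnd ℂ) (f t)).re := by
  induction N with
  | zero => simp
  | succ N ih =>
    rw [Finset.sum_range_succ, Finset.sum_range_succ (fun t => ‖f t‖ ^ 2), add_comm,
      Complex.sq_norm, Complex.normSq_add, ← Complex.sq_norm, ← Complex.sq_norm, ih]
    have h1 : ∑ h ∈ range (N + 1), ∑ t ∈ range (N + 1 - 1 - h), f (t + h + 1) * (starRingEnd ℂ) (f t)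
        = ∑ h ∈ range N, ∑ t ∈ range (N - 1 - h), f (t + h + 1) * (starRingEnd ℂ) (f t) +
          f N * (starRingEnd ℂ) (∑ t ∈ range N, f t) := by
      rw [Finset.sum_range_succ]
      have h2 : ∑ t ∈ range (N + 1 - 1 - N), f (t + N + 1) * (starRingEnd ℂ) (f t) = 0 := by
        rw [show N + 1 - 1 - N = 0 by omega]; simp
      rw [h2, add_zero, map_sum, Finset.mul_sum,
        ← Finset.sum_range_reflect (fun t => f N * (starRingEnd ℂ) (f t)) N, ← Finset.sum_add_distrib]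
      refine Finset.sum_congr rfl fun h hh => ?_
      have hh' := Finset.mem_range.1 hh
      rw [show N + 1 - 1 - h = (N - 1 - h) + 1 by omega, Finset.sum_range_succ,
        show N - 1 - h + h + 1 = N by omega]
    rw [h1, Complex.add_re]
    ring

theorem wl_vdc (f : ℕ → ℂ) (hf : ∀ t, ‖f t‖ = 1) (N : ℕ) :
    ‖∑ t ∈ range N, f t‖ ^ 2 ≤ N + 2 * ∑ h ∈ range N,
      ‖∑ t ∈ range (N - 1 - h), f (t + h + 1) * (starRingEnd ℂ) (f t)‖ := by
  rw [wl_vdc_id]
  have h1 : ∑ t ∈ range N, ‖f t‖ ^ 2 = N := by simp [hf]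
  have h2 : (∑ h ∈ range N, ∑ t ∈ range (N - 1 - h), f (t + h + 1) * (starRingEnd ℂ) (f t)).re ≤
      ∑ h ∈ range N, ‖∑ t ∈ range (N - 1 - h), f (t + h + 1) * (starRingEnd ℂ) (f t)‖ :=
    le_trans (Complex.re_le_norm _) (norm_sum_le _ _)
  linarith

theorem wl_taylor_coeff (P : ℝ[X]) (D : ℕ) (k : ℝ) (hP : P.natDegree ≤ D + 2) :
    (taylor k P - P).natDegree ≤ D + 1 ∧
      (taylor k P - P).coeff (D + 1) = (D + 2) * k * P.coeff (D + 2) := by
  constructor
  · rw [natDegree_le_iff_coeff_eq_zero]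
    intro n hn
    rw [coeff_sub, taylor_coeff]
    have h1 : (hasseDeriv n P).natDegree ≤ 0 := by
      refine le_trans (natDegree_hasseDeriv_le P n) ?_
      omega
    rw [eq_C_of_natDegree_le_zero h1, eval_C, hasseDeriv_coeff]
    simp
  · rw [coeff_sub, taylor_coeff]
    have h1 : (hasseDeriv (D + 1) P).natDegree < 2 := by
      refine lt_of_le_of_lt (natDegree_hasseDeriv_le P (D + 1)) ?_
      omega
    rw [eval_eq_sum_range' h1, Finset.sum_range_succ, Finset.sum_range_one, hasseDeriv_coeff,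
      hasseDeriv_coeff]
    have h2 : (1 + (D + 1)).choose (D + 1) = D + 2 := by
      rw [show 1 + (D + 1) = (D + 1) + 1 by ring, Nat.choose_succ_self_right]
    rw [h2, show 1 + (D + 1) = D + 2 by ring]
    push_cast
    simp
    ring

theorem wl_step_pow {a b : ℝ} (ha : 0 ≤ a) (hb : 0 ≤ b) (m : ℕ) :
    (a + b) ^ m ≤ 2 ^ m * (a ^ m + b ^ m) := by
  have h1 : a + b ≤ 2 * max a b := by
    have := le_max_left a b; have := le_max_right a b; linarith
  calc (a + b) ^ m ≤ (2 * max a b) ^ m := pow_le_pow_left₀ (by positivity) h1 m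
    _ = 2 ^ m * (max a b) ^ m := mul_pow _ _ _
    _ ≤ 2 ^ m * (a ^ m + b ^ m) := by
        apply mul_le_mul_of_nonneg_left _ (by positivity)
        have ham : 0 ≤ a ^ m := by positivity
        have hbm : 0 ≤ b ^ m := by positivity
        rcases le_total a b with h | h
        · rw [max_eq_right h]; linarith
        · rw [max_eq_left h]; linarith

/-- Weyl differencing for a real polynomial of degree `D + 1` with small leading coefficient. -/
theorem weyl_small_leading (D : ℕ) : ∃ C : ℝ, 1 ≤ C ∧ ∀ (P : ℝ[X]) (N : ℕ),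
    P.natDegree ≤ D + 1 → P.coeff (D + 1) ≠ 0 → 1 ≤ N →
    ((D + 1).factorial : ℝ) * |P.coeff (D + 1)| * (N : ℝ) ^ D ≤ 1 / 2 →
    ‖∑ t ∈ range N, e (P.eval (t : ℝ))‖ ^ (2 ^ D) ≤
      C * (N : ℝ) ^ (2 ^ D) *
        (1 / N + (1 + Real.log N) ^ D / (|P.coeff (D + 1)| * (N : ℝ) ^ (D + 1))) := by
  induction D with
  | zero =>
    refine ⟨1, le_rfl, ?_⟩
    intro P N hP hb hN hsmall
    have hb2 : |P.coeff 1| ≤ 1 / 2 := by simpa using hsmall
    have hb0 : 0 < |P.coeff 1| := abs_pos.2 (by simpa using hb)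
    have hN0 : (0:ℝ) < N := by exact_mod_cast hN
    have h1 : ∑ t ∈ range N, e (P.eval (t : ℝ)) = e (P.coeff 0) * ∑ t ∈ range N, e (P.coeff 1) ^ t := by
      rw [Finset.mul_sum]
      refine Finset.sum_congr rfl fun t _ => ?_
      rw [eval_eq_sum_range' (show P.natDegree < 2 by omega), Finset.sum_range_succ,
        Finset.sum_range_one, ← wl_nat, ← wl_add]
      congr 1; ring
    have h2 := wl_sub_one (P.coeff 1) hb2
    have hne : e (P.coeff 1) ≠ 1 := by
      intro h; rw [h, sub_self, norm_zero] at h2; linarith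
    have h3 : ‖∑ t ∈ range N, e (P.eval (t : ℝ))‖ ≤ 1 / (2 * |P.coeff 1|) := by
      rw [h1, norm_mul, wl_norm, one_mul, geom_sum_eq hne, norm_div]
      have h4 : ‖e (P.coeff 1) ^ N - 1‖ ≤ 2 := by
        calc ‖e (P.coeff 1) ^ N - 1‖ ≤ ‖e (P.coeff 1) ^ N‖ + ‖(1:ℂ)‖ := norm_sub_le _ _
          _ = 2 := by rw [norm_pow, wl_norm]; norm_num
      calc ‖e (P.coeff 1) ^ N - 1‖ / ‖e (P.coeff 1) - 1‖ ≤ 2 / (4 * |P.coeff 1|) := by gcongr
        _ = _ := by field_simp; norm_num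
    have h5 : (1:ℝ) * (N : ℝ) ^ (2 ^ 0) *
        (1 / N + (1 + Real.log N) ^ 0 / (|P.coeff (0 + 1)| * (N : ℝ) ^ (0 + 1))) =
        1 + 1 / |P.coeff 1| := by
      norm_num
      field_simp
    rw [h5, pow_zero, pow_one]
    refine le_trans h3 ?_
    have h6 : 1 / (2 * |P.coeff 1|) ≤ 1 / |P.coeff 1| := by
      apply one_div_le_one_div_of_le hb0; linarith
    linarith
  | succ D ih =>
    obtain ⟨C, hC1, hC⟩ := ih
    obtain ⟨m, hm⟩ : ∃ m : ℕ, m = 2 ^ D := ⟨_, rfl⟩
    have hmD : D + 1 ≤ m := by rw [hm]; exact Nat.lt_two_pow_self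
    refine ⟨2 ^ m * (1 + 2 ^ m * C), ?_, ?_⟩
    · have h1 : (1:ℝ) ≤ 2 ^ m := one_le_pow₀ (by norm_num)
      nlinarith [mul_le_mul h1 h1 zero_le_one (by positivity)]
    intro P N hP hb hN hsmall
    obtain ⟨b, hbdef⟩ : ∃ b : ℝ, b = |P.coeff (D + 2)| := ⟨_, rfl⟩
    have hb0 : 0 < b := by rw [hbdef]; exact abs_pos.2 hb
    have hN0 : (0:ℝ) < N := by exact_mod_cast hN
    have hN1 : (1:ℝ) ≤ N := by exact_mod_cast hN
    obtain ⟨L, hLdef⟩ : ∃ L : ℝ, L = 1 + Real.log N := ⟨_, rfl⟩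
    have hL1 : 1 ≤ L := by rw [hLdef]; have := Real.log_nonneg hN1; linarith
    obtain ⟨f, hf⟩ : ∃ f : ℕ → ℂ, f = fun t : ℕ => e (P.eval (t : ℝ)) := ⟨_, rfl⟩
    have hfn : ∀ t, ‖f t‖ = 1 := by intro t; rw [hf]; exact wl_norm _
    obtain ⟨Sh, hSh⟩ : ∃ Sh : ℕ → ℝ, Sh = fun h =>
      ‖∑ t ∈ range (N - 1 - h), f (t + h + 1) * (starRingEnd ℂ) (f t)‖ := ⟨_, rfl⟩
    have hSh0 : ∀ h, 0 ≤ Sh h := by intro h; rw [hSh]; exact norm_nonneg _
    have hvdc : ‖∑ t ∈ range N, f t‖ ^ 2 ≤ N + 2 * ∑ h ∈ range N, Sh h := by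
      rw [hSh]; exact wl_vdc f hfn N
    -- bound of the differenced sums
    have hb1 : ∀ h ∈ range N, Sh h ^ m ≤
        C * ((N:ℝ) ^ (m - 1) + (N:ℝ) ^ (m - (D + 1)) * L ^ D / b * (((h + 1 : ℕ) : ℝ))⁻¹) := by
      intro h hh
      have hh' := Finset.mem_range.1 hh
      have hrhs : 0 ≤ C * ((N:ℝ) ^ (m - 1) + (N:ℝ) ^ (m - (D + 1)) * L ^ D / b *
          (((h + 1 : ℕ) : ℝ))⁻¹) := by positivity
      rcases Nat.eq_zero_or_pos (N - 1 - h) with hM | hM
      · have h1 : Sh h = 0 := by rw [hSh]; simp [hM]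
        rw [h1, zero_pow (by omega)]
        exact hrhs
      · obtain ⟨M, hMdef⟩ : ∃ M : ℕ, M = N - 1 - h := ⟨_, rfl⟩
        rw [← hMdef] at hM
        have hMN : M ≤ N := by omega
        have hkN : h + 1 ≤ N := by omega
        have hM0 : (0:ℝ) < M := by exact_mod_cast hM
        have hMN' : (M:ℝ) ≤ N := by exact_mod_cast hMN
        have hkN' : ((h + 1 : ℕ) : ℝ) ≤ N := by exact_mod_cast hkN
        have hk0 : (0:ℝ) < ((h + 1 : ℕ) : ℝ) := by positivity
        obtain ⟨k, hk⟩ : ∃ k : ℝ, k = ((h + 1 : ℕ) : ℝ) := ⟨_, rfl⟩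
        rw [← hk] at hkN' hk0 ⊢
        obtain ⟨hd, hc⟩ := wl_taylor_coeff P D k hP
        have hSf : Sh h = ‖∑ t ∈ range M, e ((taylor k P - P).eval (t : ℝ))‖ := by
          rw [hSh, hMdef, hf]
          change ‖∑ t ∈ range (N - 1 - h), e (P.eval (((t + h + 1 : ℕ)) : ℝ)) *
            (starRingEnd ℂ) (e (P.eval ((t : ℕ) : ℝ)))‖ = _
          refine congrArg norm (Finset.sum_congr rfl fun t _ => ?_)
          rw [wl_conj, ← wl_add, eval_sub, taylor_eval, hk]
          congr 1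
          push_cast
          ring_nf
        have habs : |(taylor k P - P).coeff (D + 1)| = (D + 2) * k * b := by
          rw [hc, abs_mul, abs_mul, hbdef, abs_of_pos hk0,
            abs_of_pos (by positivity : (0:ℝ) < (D:ℝ) + 2)]
        have hne : (taylor k P - P).coeff (D + 1) ≠ 0 := by
          intro h0
          rw [h0, abs_zero] at habs
          have : 0 < ((D:ℝ) + 2) * k * b := by positivity
          linarith
        have hsm : ((D + 1).factorial : ℝ) * |(taylor k P - P).coeff (D + 1)| * (M : ℝ) ^ D ≤ 1 / 2 := by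
          rw [habs]
          have hfac : (((D + 1 + 1).factorial : ℕ) : ℝ) = ((D:ℝ) + 2) * ((D + 1).factorial : ℝ) := by
            rw [Nat.factorial_succ]; push_cast; ring
          rw [hfac, ← hbdef] at hsmall
          refine le_trans ?_ hsmall
          calc ((D + 1).factorial : ℝ) * ((D + 2) * k * b) * (M : ℝ) ^ D
              = (((D:ℝ) + 2) * ((D + 1).factorial : ℝ) * b) * (k * (M : ℝ) ^ D) := by ring
            _ ≤ (((D:ℝ) + 2) * ((D + 1).factorial : ℝ) * b) * (N * (N : ℝ) ^ D) := by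
                gcongr
            _ = _ := by rw [pow_succ]; ring
        have h1 := hC (taylor k P - P) M hd hne hM hsm
        rw [← hSf, ← hm, habs] at h1
        refine le_trans h1 ?_
        have hM1 : (1:ℝ) ≤ M := by exact_mod_cast hM
        have hlogM : Real.log M ≤ Real.log N := Real.log_le_log hM0 hMN'
        have hlogM0 : 0 ≤ Real.log M := Real.log_nonneg hM1
        rw [mul_assoc]
        apply mul_le_mul_of_nonneg_left _ (by linarith)
        have e1 : (M:ℝ) ^ m * (1 / M) = (M:ℝ) ^ (m - 1) := by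
          have : m = (m - 1) + 1 := by omega
          conv_lhs => rw [this, pow_succ]
          field_simp
        have e2 : (M:ℝ) ^ m = (M:ℝ) ^ (m - (D + 1)) * (M:ℝ) ^ (D + 1) := by
          rw [← pow_add]; congr 1; omega
        calc (M:ℝ) ^ m * (1 / M + (1 + Real.log M) ^ D / ((D + 2) * k * b * (M:ℝ) ^ (D + 1)))
            = (M:ℝ) ^ m * (1 / M) +
              (M:ℝ) ^ m * ((1 + Real.log M) ^ D / ((D + 2) * k * b * (M:ℝ) ^ (D + 1))) := by ring
          _ = (M:ℝ) ^ (m - 1) + (M:ℝ) ^ (m - (D + 1)) * ((1 + Real.log M) ^ D / ((D + 2) * k * b)) := by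
              rw [e1, e2]; congr 1; field_simp
          _ ≤ (N:ℝ) ^ (m - 1) + (N:ℝ) ^ (m - (D + 1)) * (L ^ D / (1 * k * b)) := by
              rw [hLdef]
              gcongr
              have : (0:ℝ) ≤ D := Nat.cast_nonneg D
              linarith
          _ = _ := by rw [one_mul]; field_simp
    -- power mean
    have hT0 : 0 ≤ ∑ h ∈ range N, Sh h := Finset.sum_nonneg fun h _ => hSh0 h
    have hTm : (∑ h ∈ range N, Sh h) ^ m ≤ C * ((N:ℝ) ^ (2 * m) *
        (1 / N + L ^ (D + 1) / (b * (N:ℝ) ^ (D + 2)))) := by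
      obtain ⟨m', hm'⟩ : ∃ m' : ℕ, m = m' + 1 := ⟨m - 1, by omega⟩
      have h1 := pow_sum_div_card_le_sum_pow (s := range N) (f := Sh) (fun h _ => hSh0 h) m'
      rw [← hm', Finset.card_range, div_le_iff₀ (by positivity)] at h1
      have hharm : ∑ h ∈ range N, (((h + 1 : ℕ) : ℝ))⁻¹ ≤ L := by
        have h2 := harmonic_le_one_add_log N
        rw [hLdef]
        refine le_trans (le_of_eq ?_) h2
        unfold harmonic
        push_cast
        rfl
      have h3 : ∑ h ∈ range N, Sh h ^ m ≤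
          C * (N * (N:ℝ) ^ (m - 1) + (N:ℝ) ^ (m - (D + 1)) * L ^ D / b * L) := by
        refine le_trans (Finset.sum_le_sum hb1) ?_
        rw [← Finset.mul_sum, Finset.sum_add_distrib, Finset.sum_const, Finset.card_range,
          nsmul_eq_mul, ← Finset.mul_sum]
        apply mul_le_mul_of_nonneg_left _ (by linarith)
        gcongr
      calc (∑ h ∈ range N, Sh h) ^ m ≤ (∑ h ∈ range N, Sh h ^ m) * (N:ℝ) ^ m' := h1
        _ ≤ (C * (N * (N:ℝ) ^ (m - 1) + (N:ℝ) ^ (m - (D + 1)) * L ^ D / b * L)) * (N:ℝ) ^ m' := by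
            gcongr
        _ = C * ((N * (N:ℝ) ^ (m - 1)) * (N:ℝ) ^ m' +
              ((N:ℝ) ^ (m - (D + 1)) * (N:ℝ) ^ m') * (L ^ D * L) / b) := by ring
        _ = C * ((N:ℝ) ^ (2 * m) * (1 / N + L ^ (D + 1) / (b * (N:ℝ) ^ (D + 2)))) := by
            have e1 : ((N:ℝ) * (N:ℝ) ^ (m - 1)) * (N:ℝ) ^ m' * N = (N:ℝ) ^ (2 * m) := by
              rw [← pow_succ', ← pow_add, ← pow_succ]; congr 1; omega
            have e2 : ((N:ℝ) ^ (m - (D + 1)) * (N:ℝ) ^ m') * (N:ℝ) ^ (D + 2) = (N:ℝ) ^ (2 * m) := by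
              rw [← pow_add, ← pow_add]; congr 1; omega
            congr 1
            rw [mul_add]
            congr 1
            · rw [← e1]; field_simp
            · rw [← e2, pow_succ L D]; field_simp
    have hfin : ‖∑ t ∈ range N, f t‖ ^ (2 * m) ≤ 2 ^ m * (1 + 2 ^ m * C) * (N:ℝ) ^ (2 * m) *
        (1 / N + L ^ (D + 1) / (b * (N:ℝ) ^ (D + 2))) := by
      have hW : 0 ≤ L ^ (D + 1) / (b * (N:ℝ) ^ (D + 2)) := by positivity
      have hNm : (N:ℝ) ^ m ≤ (N:ℝ) ^ (2 * m) * (1 / N + L ^ (D + 1) / (b * (N:ℝ) ^ (D + 2))) := by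
        have h1 : (N:ℝ) ^ m ≤ (N:ℝ) ^ (2 * m) * (1 / N) := by
          have e1 : (N:ℝ) ^ (2 * m) * (1 / N) = (N:ℝ) ^ (2 * m - 1) := by
            have : 2 * m = (2 * m - 1) + 1 := by omega
            conv_lhs => rw [this, pow_succ]
            field_simp
          rw [e1]
          exact pow_le_pow_right₀ hN1 (by omega)
        have h2 : 0 ≤ (N:ℝ) ^ (2 * m) * (L ^ (D + 1) / (b * (N:ℝ) ^ (D + 2))) := by positivity
        nlinarith
      calc ‖∑ t ∈ range N, f t‖ ^ (2 * m) = (‖∑ t ∈ range N, f t‖ ^ 2) ^ m := by rw [pow_mul]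
        _ ≤ (N + 2 * ∑ h ∈ range N, Sh h) ^ m := pow_le_pow_left₀ (by positivity) hvdc m
        _ ≤ 2 ^ m * ((N:ℝ) ^ m + (2 * ∑ h ∈ range N, Sh h) ^ m) :=
            wl_step_pow hN0.le (by positivity) m
        _ ≤ 2 ^ m * ((N:ℝ) ^ (2 * m) * (1 / N + L ^ (D + 1) / (b * (N:ℝ) ^ (D + 2))) +
              2 ^ m * (C * ((N:ℝ) ^ (2 * m) * (1 / N + L ^ (D + 1) / (b * (N:ℝ) ^ (D + 2)))))) := by
            rw [mul_pow]
            gcongr
        _ = _ := by ring
    rw [hf] at hfin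
    rw [show (2:ℕ) ^ (D + 1) = 2 * m by rw [pow_succ, hm]; ring]
    rw [← hLdef, show D + 1 + 1 = D + 2 by ring, ← hbdef]
    exact hfin

end Pool.Agent.Helper564.E451
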