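import Mathlib
import Pool.Agent.Helper564.E451.Weyl

set_option autoImplicit false

open Finset Polynomial

namespace Pool.Agent.Helper564.E451



theorem block_exp_sum_lip (x y : ℝ) : ‖e x - e y‖ ≤ 2 * Real.pi * |x - y| := by
  have h1 : e x - e y = e y * (Complex.exp (Complex.I * ((2 * Real.pi * (x - y) : ℝ) : ℂ)) - 1) := by
    unfold e
    rw [mul_sub, mul_one, ← Complex.exp_add]
    congr 2
    push_cast
    ring
  have h2 : ‖e y‖ = 1 := by
    unfold e
    rw [show 2 * (Real.pi : ℂ) * Complex.I * y = ((2 * Real.pi * y : ℝ) : ℂ) * Complex.I by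
      push_cast; ring]
    exact Complex.norm_exp_ofReal_mul_I _
  rw [h1, norm_mul, h2, one_mul]
  refine Real.norm_exp_I_mul_ofReal_sub_one_le.trans ?_
  rw [Real.norm_eq_abs, abs_mul, abs_of_pos (by positivity)]

theorem block_exp_sum_ceil (q A : ℕ) (hq : 1 ≤ q) : ∃ l, A ≤ q * l ∧ q * l < A + q := by
  refine ⟨(A + q - 1) / q, ?_⟩
  have h1 := Nat.div_add_mod (A + q - 1) q
  have h2 := Nat.mod_lt (A + q - 1) (show 0 < q by omega)
  generalize q * ((A + q - 1) / q) = v at h1 ⊢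
  omega

theorem block_exp_sum_geom (n a x : ℝ) (ha : 0 < a) (hx : 0 ≤ x) (m : ℕ) :
    n / (a + x) = ∑ i ∈ range m, n * (-x) ^ i / a ^ (i + 1) +
      (-x) ^ m * n / (a ^ m * (a + x)) := by
  have hax : a + x ≠ 0 := by positivity
  have ha' : a ≠ 0 := ha.ne'
  induction m with
  | zero => simp
  | succ m ih =>
    rw [ih, Finset.sum_range_succ, add_assoc]
    congr 1
    rw [pow_succ (-x) m, pow_succ a m]
    field_simp
    ring

/-- the set of multiples -/
theorem block_exp_sum_reindex (M H q M1 L l0 : ℕ) (hq : 1 ≤ q) (hM1 : M1 = q * l0) (h1 : M ≤ M1)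
    (h2 : M1 < M + q) (hL1 : M + H ≤ M1 + q * L) (hL2 : M1 + q * L < M + H + q) (f : ℕ → ℂ) :
    ∑ m ∈ (Ico M (M + H)).filter (fun m => q ∣ m), f m = ∑ t ∈ range L, f (M1 + q * t) := by
  have hset : (Ico M (M + H)).filter (fun m => q ∣ m) = (range L).image (fun t => M1 + q * t) := by
    ext m
    simp only [mem_filter, mem_Ico, mem_image, mem_range]
    constructor
    · rintro ⟨⟨h3, h4⟩, s, rfl⟩
      have hs : l0 ≤ s := by
        by_contra hlt
        push Not at hlt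
        have : q * (s + 1) ≤ q * l0 := Nat.mul_le_mul_left q hlt
        rw [mul_add, mul_one] at this
        omega
      obtain ⟨t, rfl⟩ := Nat.exists_eq_add_of_le hs
      refine ⟨t, ?_, by rw [hM1]; ring⟩
      by_contra hlt
      push Not at hlt
      have : q * L ≤ q * t := Nat.mul_le_mul_left q hlt
      rw [mul_add, ← hM1] at h4
      omega
    · rintro ⟨t, ht, rfl⟩
      refine ⟨⟨by omega, ?_⟩, ?_⟩
      · have : q * (t + 1) ≤ q * L := Nat.mul_le_mul_left q ht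
        rw [mul_add, mul_one] at this
        omega
      · rw [hM1, ← mul_add]
        exact dvd_mul_right _ _
  rw [hset, Finset.sum_image]
  intro a _ b _ hab
  have : q * a = q * b := by
    simp only at hab
    omega
  exact Nat.eq_of_mul_eq_mul_left (by omega) this

/-- TARGET: exponential sum of `g n / m` over the multiples `m` of `q` in a block. -/
theorem block_exp_sum (D : ℕ) : ∃ C : ℝ, 1 ≤ C ∧ ∀ (k n H q g M : ℕ), 1 ≤ n → 1 ≤ g → 1 ≤ q →
    2 * q ≤ H → H ≤ k → k ≤ M → M ≤ 2 * k →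
    ((D + 1).factorial : ℝ) * g * n * q * (2 * (H : ℝ)) ^ D ≤ (k : ℝ) ^ (D + 2) / 2 →
    ‖∑ m ∈ (Ico M (M + H)).filter (fun m => q ∣ m), e (g * ((n : ℝ) / m))‖ ≤
      C * H * (((q : ℝ) / H + (k : ℝ) ^ (D + 2) * (1 + Real.log H) ^ D /
          (g * n * (H : ℝ) ^ (D + 1))) ^ ((1 : ℝ) / 2 ^ D) +
        g * n * (H : ℝ) ^ (D + 2) / (k : ℝ) ^ (D + 3)) := by
  obtain ⟨C0, hC0, hW⟩ := weyl_small_leading D
  set K1 : ℝ := 2 ^ (2 * D + 1) * 3 ^ (D + 2) with hK1
  have hK1' : 2 ≤ K1 := by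
    have h1 : (2 : ℝ) ^ 1 ≤ 2 ^ (2 * D + 1) := pow_le_pow_right₀ (by norm_num) (by omega)
    have h2 : (1 : ℝ) ≤ 3 ^ (D + 2) := one_le_pow₀ (by norm_num)
    calc (2 : ℝ) = 2 ^ 1 * 1 := by norm_num
      _ ≤ 2 ^ (2 * D + 1) * 3 ^ (D + 2) := mul_le_mul h1 h2 (by norm_num) (by positivity)
  have hpi := Real.pi_pos
  refine ⟨2 * C0 * K1 + 4 * Real.pi, by nlinarith, ?_⟩
  intro k n H q g M hn hg hq hqH hHk hkM hM2 hsmall
  obtain ⟨l0, hl1, hl2⟩ := block_exp_sum_ceil q M hq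
  obtain ⟨L, hL1, hL2⟩ := block_exp_sum_ceil q (M + H - q * l0) hq
  obtain ⟨M1, hM1⟩ : ∃ M1, M1 = q * l0 := ⟨_, rfl⟩
  rw [← hM1] at hl1 hl2 hL1 hL2
  rw [block_exp_sum_reindex M H q M1 L l0 hq hM1 hl1 hl2 (by omega) (by omega)
    (fun m => e (g * ((n : ℝ) / m)))]
  -- real versions
  have hLpos : 1 ≤ L := by
    by_contra h
    have : L = 0 := by omega
    subst this
    omega
  have rq : (1 : ℝ) ≤ q := by exact_mod_cast hq
  have rn : (1 : ℝ) ≤ n := by exact_mod_cast hn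
  have rg : (1 : ℝ) ≤ g := by exact_mod_cast hg
  have rL : (1 : ℝ) ≤ L := by exact_mod_cast hLpos
  have rH : (2 : ℝ) ≤ H := by
    have : 2 ≤ H := by omega
    exact_mod_cast this
  have rk : (2 : ℝ) ≤ k := by
    have : 2 ≤ k := by omega
    exact_mod_cast this
  have rM1 : (k : ℝ) ≤ M1 := by
    have : k ≤ M1 := by omega
    exact_mod_cast this
  have rM1' : (M1 : ℝ) ≤ 3 * k := by
    have : M1 ≤ 3 * k := by omega
    exact_mod_cast this
  have hqL : ((q : ℝ) * L) ≤ 2 * H := by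
    have : q * L ≤ 2 * H := by omega
    exact_mod_cast this
  have hqL2 : (H : ℝ) ≤ 2 * (q * L) := by
    have : H ≤ 2 * (q * L) := by omega
    exact_mod_cast this
  have hL2H : (L : ℝ) ≤ 2 * H := by nlinarith
  have ha : (0 : ℝ) < M1 := by linarith
  -- the polynomial
  set P : ℝ[X] := ∑ i ∈ range (D + 2), Polynomial.monomial i
    ((g : ℝ) * n * (-(q : ℝ)) ^ i / (M1 : ℝ) ^ (i + 1)) with hP
  have hdeg : P.natDegree ≤ D + 1 := by
    apply Polynomial.natDegree_sum_le_of_forall_le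
    intro i hi
    rw [mem_range] at hi
    exact (Polynomial.natDegree_monomial_le _).trans (by omega)
  have hcoeff : P.coeff (D + 1) = (g : ℝ) * n * (-(q : ℝ)) ^ (D + 1) / (M1 : ℝ) ^ (D + 2) := by
    rw [hP, Polynomial.finsetSum_coeff]
    simp only [Polynomial.coeff_monomial]
    rw [Finset.sum_ite_eq']
    rw [if_pos (by rw [mem_range]; omega)]
  have hb : |P.coeff (D + 1)| = (g : ℝ) * n * (q : ℝ) ^ (D + 1) / (M1 : ℝ) ^ (D + 2) := by
    rw [hcoeff, abs_div, abs_mul, abs_mul, abs_pow, abs_neg, abs_pow, Nat.abs_cast, Nat.abs_cast,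
      Nat.abs_cast, Nat.abs_cast]
  have hbpos : 0 < |P.coeff (D + 1)| := by rw [hb]; positivity
  have heval : ∀ t : ℕ, P.eval (t : ℝ) =
      ∑ i ∈ range (D + 2), (g * (n * (-((q : ℝ) * t)) ^ i / (M1 : ℝ) ^ (i + 1))) := by
    intro t
    rw [hP, Polynomial.eval_finsetSum]
    apply Finset.sum_congr rfl
    intro i _
    rw [Polynomial.eval_monomial, neg_mul_eq_neg_mul, mul_pow]
    ring
  -- truncation
  set E : ℝ := g * n * (H : ℝ) ^ (D + 2) / (k : ℝ) ^ (D + 3) with hE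
  have htr : ∀ t ∈ range L, ‖e (g * ((n : ℝ) / ((M1 + q * t : ℕ) : ℝ))) - e (P.eval (t : ℝ))‖ ≤
      2 * Real.pi * E := by
    intro t ht
    rw [mem_range] at ht
    refine (block_exp_sum_lip _ _).trans ?_
    apply mul_le_mul_of_nonneg_left _ (by positivity)
    obtain ⟨x, hx⟩ : ∃ x : ℝ, x = q * t := ⟨_, rfl⟩
    have hx0 : 0 ≤ x := by rw [hx]; positivity
    have hxH : x ≤ H := by
      have h1 : q * (t + 1) ≤ q * L := Nat.mul_le_mul_left q ht
      rw [mul_add, mul_one] at h1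
      have h2 : q * t ≤ H := by omega
      rw [hx]
      exact_mod_cast h2
    have e1 : ((M1 + q * t : ℕ) : ℝ) = M1 + x := by rw [hx]; push_cast; rfl
    rw [e1, block_exp_sum_geom n M1 x ha hx0 (D + 2), heval, mul_add, Finset.mul_sum, ← hx]
    rw [add_sub_cancel_left]
    have e2 : |(g : ℝ) * ((-x) ^ (D + 2) * n / ((M1 : ℝ) ^ (D + 2) * (M1 + x)))| =
        g * n * x ^ (D + 2) / ((M1 : ℝ) ^ (D + 2) * (M1 + x)) := by
      rw [abs_mul, abs_div, abs_mul, abs_pow, abs_neg, abs_of_nonneg hx0, Nat.abs_cast,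
        Nat.abs_cast, abs_of_pos (show 0 < (M1 : ℝ) ^ (D + 2) * (M1 + x) by positivity)]
      ring
    rw [e2, hE]
    rw [show (k : ℝ) ^ (D + 3) = (k : ℝ) ^ (D + 2) * k by ring]
    apply div_le_div₀ (by positivity)
    · gcongr
    · positivity
    · gcongr
      linarith
  -- the main sum
  set S0 : ℝ := ‖∑ t ∈ range L, e (P.eval (t : ℝ))‖ with hS0
  have hmain : ‖∑ t ∈ range L, e (g * ((n : ℝ) / ((M1 + q * t : ℕ) : ℝ)))‖ ≤
      S0 + L * (2 * Real.pi * E) := by
    have h1 : ∑ t ∈ range L, e (g * ((n : ℝ) / ((M1 + q * t : ℕ) : ℝ))) =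
        ∑ t ∈ range L, e (P.eval (t : ℝ)) +
        ∑ t ∈ range L, (e (g * ((n : ℝ) / ((M1 + q * t : ℕ) : ℝ))) - e (P.eval (t : ℝ))) := by
      rw [← Finset.sum_add_distrib]
      apply Finset.sum_congr rfl
      intro t _
      ring
    rw [h1]
    refine (norm_add_le _ _).trans ?_
    gcongr
    refine (norm_sum_le _ _).trans ?_
    refine (Finset.sum_le_sum htr).trans ?_
    rw [Finset.sum_const, card_range, nsmul_eq_mul]
  have hE0 : 0 ≤ E := by rw [hE]; positivity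
  have hWs := hW P L hdeg (by intro h0; rw [h0, abs_zero] at hbpos; exact lt_irrefl _ hbpos) hLpos (by
    rw [hb]
    have h1 : ((D + 1).factorial : ℝ) * (g * n * (q : ℝ) ^ (D + 1) / (M1 : ℝ) ^ (D + 2)) * (L : ℝ) ^ D =
        ((D + 1).factorial : ℝ) * g * n * q * (q * L) ^ D / (M1 : ℝ) ^ (D + 2) := by
      rw [mul_pow, pow_succ]; ring
    rw [h1, div_le_iff₀ (by positivity)]
    have h2 : ((D + 1).factorial : ℝ) * g * n * q * (q * L) ^ D ≤
        ((D + 1).factorial : ℝ) * g * n * q * (2 * (H : ℝ)) ^ D := by gcongr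
    have h3 : (k : ℝ) ^ (D + 2) ≤ (M1 : ℝ) ^ (D + 2) := by gcongr
    linarith)
  set y : ℝ := (q : ℝ) / H + (k : ℝ) ^ (D + 2) * (1 + Real.log H) ^ D /
          (g * n * (H : ℝ) ^ (D + 1)) with hy
  have hlogH : 0 ≤ Real.log H := Real.log_nonneg (by linarith)
  have hy0 : 0 ≤ y := by rw [hy]; positivity
  set Z : ℝ := 1 / L + (1 + Real.log L) ^ D / (|P.coeff (D + 1)| * (L : ℝ) ^ (D + 1)) with hZ
  have hlogL0 : 0 ≤ Real.log L := Real.log_nonneg rL
  have hZ0 : 0 ≤ Z := by rw [hZ]; positivity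
  have hZy : Z ≤ K1 * y := by
    rw [hZ, hy, mul_add]
    apply add_le_add
    · rw [mul_div_assoc', div_le_div_iff₀ (by positivity) (by positivity), one_mul]
      calc (H : ℝ) ≤ 2 * (q * L) := hqL2
        _ ≤ K1 * (q * L) := by gcongr
        _ = _ := by ring
    · have h1 : 1 + Real.log L ≤ 2 * (1 + Real.log H) := by
        have h2 : Real.log L ≤ Real.log (2 * H) := Real.log_le_log (by linarith) hL2H
        rw [Real.log_mul (by norm_num) (by positivity)] at h2
        have h3 : Real.log 2 ≤ 1 := by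
          have := Real.log_two_lt_d9
          linarith
        linarith
      have h2 : (1 + Real.log L) ^ D ≤ 2 ^ D * (1 + Real.log H) ^ D := by
        rw [← mul_pow]
        gcongr
      have h3 : g * n * (H : ℝ) ^ (D + 1) / (2 ^ (D + 1) * 3 ^ (D + 2) * (k : ℝ) ^ (D + 2)) ≤
          |P.coeff (D + 1)| * (L : ℝ) ^ (D + 1) := by
        rw [hb]
        have e1 : (g : ℝ) * n * (q : ℝ) ^ (D + 1) / (M1 : ℝ) ^ (D + 2) * (L : ℝ) ^ (D + 1) =
            g * n * (q * L) ^ (D + 1) / (M1 : ℝ) ^ (D + 2) := by rw [mul_pow]; ring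
        rw [e1, div_le_div_iff₀ (by positivity) (by positivity)]
        have e2 : (H : ℝ) ^ (D + 1) ≤ (2 * (q * L)) ^ (D + 1) := by gcongr
        have e3 : (M1 : ℝ) ^ (D + 2) ≤ (3 * k) ^ (D + 2) := by gcongr
        calc g * n * (H : ℝ) ^ (D + 1) * (M1 : ℝ) ^ (D + 2)
            ≤ g * n * (2 * (q * L)) ^ (D + 1) * (3 * k) ^ (D + 2) := by gcongr
          _ = _ := by rw [mul_pow 2, mul_pow 3]; ring
      have h4 : 0 < g * n * (H : ℝ) ^ (D + 1) / (2 ^ (D + 1) * 3 ^ (D + 2) * (k : ℝ) ^ (D + 2)) := by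
        positivity
      calc (1 + Real.log L) ^ D / (|P.coeff (D + 1)| * (L : ℝ) ^ (D + 1))
          ≤ (2 ^ D * (1 + Real.log H) ^ D) /
            (g * n * (H : ℝ) ^ (D + 1) / (2 ^ (D + 1) * 3 ^ (D + 2) * (k : ℝ) ^ (D + 2))) :=
            div_le_div₀ (by positivity) h2 h4 h3
        _ = K1 * ((k : ℝ) ^ (D + 2) * (1 + Real.log H) ^ D / (g * n * (H : ℝ) ^ (D + 1))) := by
            rw [hK1, show 2 * D + 1 = D + (D + 1) by ring, pow_add 2 D (D+1)]
            field_simp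
  -- roots
  set p : ℝ := (1 : ℝ) / 2 ^ D with hp
  have hp0 : 0 < p := by rw [hp]; positivity
  have hp1 : p ≤ 1 := by
    rw [hp, div_le_one (by positivity)]
    exact one_le_pow₀ (by norm_num)
  have hpn : p = (((2 ^ D : ℕ) : ℝ))⁻¹ := by rw [hp]; push_cast; rw [one_div]
  have hroot : ∀ v : ℝ, 0 ≤ v → (v ^ (2 ^ D)) ^ p = v := by
    intro v hv
    rw [hpn]
    exact Real.pow_rpow_inv_natCast hv (by positivity)
  have hS0' : S0 ≤ C0 * (2 * H) * (K1 * y ^ p) := by
    have hS00 : 0 ≤ S0 := norm_nonneg _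
    calc S0 = (S0 ^ (2 ^ D)) ^ p := (hroot S0 hS00).symm
      _ ≤ (C0 * (L : ℝ) ^ (2 ^ D) * Z) ^ p :=
          Real.rpow_le_rpow (by positivity) hWs hp0.le
      _ = C0 ^ p * L * Z ^ p := by
          rw [Real.mul_rpow (by positivity) hZ0, Real.mul_rpow (by linarith) (by positivity),
            hroot L (by linarith)]
      _ ≤ C0 * (2 * H) * (K1 * y ^ p) := by
          have i1 : C0 ^ p ≤ C0 := by
            calc C0 ^ p ≤ C0 ^ (1 : ℝ) := Real.rpow_le_rpow_of_exponent_le hC0 hp1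
              _ = C0 := Real.rpow_one _
          have i2 : Z ^ p ≤ K1 * y ^ p := by
            calc Z ^ p ≤ (K1 * y) ^ p := Real.rpow_le_rpow hZ0 hZy hp0.le
              _ = K1 ^ p * y ^ p := Real.mul_rpow (by linarith) hy0
              _ ≤ K1 * y ^ p := by
                  gcongr
                  calc K1 ^ p ≤ K1 ^ (1 : ℝ) :=
                        Real.rpow_le_rpow_of_exponent_le (by linarith) hp1
                    _ = K1 := Real.rpow_one _
          have i3 : 0 ≤ C0 ^ p := Real.rpow_nonneg (by linarith) _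
          have i4 : 0 ≤ Z ^ p := Real.rpow_nonneg hZ0 _
          have i5 : C0 ^ p * L ≤ C0 * (2 * H) := mul_le_mul i1 hL2H (by linarith) (by linarith)
          exact mul_le_mul i5 i2 i4 (by nlinarith)
  have hyp0 : 0 ≤ y ^ p := Real.rpow_nonneg hy0 _
  calc ‖∑ t ∈ range L, e (g * ((n : ℝ) / ((M1 + q * t : ℕ) : ℝ)))‖
      ≤ S0 + L * (2 * Real.pi * E) := hmain
    _ ≤ C0 * (2 * H) * (K1 * y ^ p) + (2 * H) * (2 * Real.pi * E) := by
        gcongr
    _ ≤ (2 * C0 * K1 + 4 * Real.pi) * H * (y ^ p + E) := by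
        have j1 : 0 ≤ 2 * C0 * K1 * H * E := by positivity
        have j2 : 0 ≤ 4 * Real.pi * H * y ^ p := by positivity
        have j3 : (2 * C0 * K1 + 4 * Real.pi) * H * (y ^ p + E) -
            (C0 * (2 * H) * (K1 * y ^ p) + (2 * H) * (2 * Real.pi * E)) =
            2 * C0 * K1 * H * E + 4 * Real.pi * H * y ^ p := by ring
        linarith

end Pool.Agent.Helper564.E451
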