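import Mathlib
import Pool.Agent.Helper564.E451.Weyl

set_option autoImplicit false

open Finset

namespace Pool.Agent.Helper564.E451


/-- Fejer kernel -/
noncomputable def F (G : ℕ) (x : ℝ) : ℝ := (1 / (G : ℝ)) * ‖∑ j ∈ range G, e (j * x)‖ ^ 2

theorem e_add' (x y : ℝ) : e (x + y) = e x * e y := by
  unfold e
  rw [← Complex.exp_add]
  congr 1
  push_cast
  ring

theorem norm_e' (x : ℝ) : ‖e x‖ = 1 := by
  unfold e
  have : (2 * Real.pi * Complex.I * x : ℂ) = ((2 * Real.pi * x : ℝ) : ℂ) * Complex.I := by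
    push_cast; ring
  rw [this, Complex.norm_exp_ofReal_mul_I]

theorem e_re' (x : ℝ) : (e x).re = Real.cos (2 * Real.pi * x) := by
  unfold e
  have : (2 * Real.pi * Complex.I * x : ℂ) = ((2 * Real.pi * x : ℝ) : ℂ) * Complex.I := by
    push_cast; ring
  rw [this, Complex.exp_ofReal_mul_I_re]

theorem e_zero' : e 0 = 1 := by
  unfold e; simp

theorem e_int' (z : ℤ) : e (z : ℝ) = 1 := by
  unfold e
  have : (2 * Real.pi * Complex.I * ((z : ℝ) : ℂ) : ℂ) = (z : ℂ) * (2 * Real.pi * Complex.I) := by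
    push_cast; ring
  rw [this, Complex.exp_int_mul_two_pi_mul_I]

theorem conj_e' (x : ℝ) : (starRingEnd ℂ) (e x) = e (-x) := by
  unfold e
  rw [← Complex.exp_conj]
  congr 1
  simp only [map_mul, Complex.conj_ofReal, Complex.conj_I, map_ofNat]
  push_cast
  ring

theorem F_nonneg (G : ℕ) (x : ℝ) : 0 ≤ F G x := by
  unfold F
  positivity

theorem F_le (G : ℕ) (x : ℝ) : F G x ≤ G := by
  unfold F
  have h1 : ‖∑ j ∈ range G, e (j * x)‖ ≤ G := by
    calc ‖∑ j ∈ range G, e (j * x)‖ ≤ ∑ j ∈ range G, ‖e (j * x)‖ := norm_sum_le _ _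
      _ = G := by simp [norm_e']
  rcases Nat.eq_zero_or_pos G with h | h
  · subst h; simp
  · have hG : (0 : ℝ) < G := by exact_mod_cast h
    have h2 : ‖∑ j ∈ range G, e (j * x)‖ ^ 2 ≤ (G : ℝ) ^ 2 :=
      pow_le_pow_left₀ (norm_nonneg _) h1 2
    calc (1 / (G : ℝ)) * ‖∑ j ∈ range G, e (j * x)‖ ^ 2 ≤ (1 / (G : ℝ)) * (G : ℝ) ^ 2 := by
          apply mul_le_mul_of_nonneg_left h2; positivity
      _ = (G : ℝ) := by field_simp

theorem sum_id_aux' (G : ℕ) : ∑ j ∈ range G, (j : ℝ) ≤ (G : ℝ) ^ 2 / 2 := by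
  induction G with
  | zero => simp
  | succ n ih =>
    rw [sum_range_succ]
    push_cast
    nlinarith

theorem F_ge (G : ℕ) (hG : 1 ≤ G) (x : ℝ) (z : ℤ) (h : |x - z| ≤ 1 / (4 * G)) :
    (G : ℝ) / 4 ≤ F G x := by
  have hG0 : (0 : ℝ) < G := by exact_mod_cast hG
  set y : ℝ := x - z with hy
  have hterm : ∀ j ∈ range G, 1 - (j : ℝ) / G ≤ (e (j * x)).re := by
    intro j hj
    have hjG : (j : ℝ) < G := by exact_mod_cast mem_range.mp hj
    have hj0 : (0 : ℝ) ≤ j := Nat.cast_nonneg j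
    have e1 : e (j * x) = e (j * y) := by
      have : (j : ℝ) * x = j * y + (((j : ℤ) * z : ℤ) : ℝ) := by
        rw [hy]; push_cast; ring
      rw [this, e_add', e_int', mul_one]
    rw [e1, e_re', ← Real.cos_abs]
    have habs : |2 * Real.pi * (j * y)| = 2 * Real.pi * (j * |y|) := by
      rw [abs_mul (2 * Real.pi), abs_mul (j : ℝ), abs_of_pos (by positivity : (0:ℝ) < 2 * Real.pi), abs_of_nonneg hj0]
    rw [habs]
    have hjy : (j : ℝ) * |y| ≤ j * (1 / (4 * G)) := mul_le_mul_of_nonneg_left h hj0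
    have hjy' : (j : ℝ) * (1 / (4 * G)) = (j / G) / 4 := by field_simp
    have hjG1 : (j : ℝ) / G ≤ 1 := by rw [div_le_one hG0]; exact hjG.le
    set t : ℝ := 2 * Real.pi * (j * |y|) with ht
    have ht0 : 0 ≤ t := by positivity
    have hpi := Real.pi_pos
    have ht1 : t ≤ Real.pi / 2 := by
      have : (j : ℝ) * |y| ≤ 1 / 4 := by rw [hjy'] at hjy; linarith
      rw [ht]; nlinarith
    have hs : 2 / Real.pi * (Real.pi / 2 - t) ≤ Real.sin (Real.pi / 2 - t) :=
      Real.mul_le_sin (by linarith) (by linarith)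
    rw [Real.sin_pi_div_two_sub] at hs
    have h3 : 2 / Real.pi * (Real.pi / 2 - t) = 1 - 4 * (j * |y|) := by
      rw [ht]; field_simp; ring
    rw [h3] at hs
    rw [hjy'] at hjy
    linarith
  have hre : (G : ℝ) / 2 ≤ (∑ j ∈ range G, e (j * x)).re := by
    rw [Complex.re_sum]
    calc (G : ℝ) / 2 ≤ ∑ j ∈ range G, (1 - (j : ℝ) / G) := by
          rw [sum_sub_distrib, ← sum_div]
          simp only [sum_const, card_range, nsmul_eq_mul, mul_one]
          have := sum_id_aux' G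
          have h4 : (∑ j ∈ range G, (j : ℝ)) / G ≤ ((G : ℝ) ^ 2 / 2) / G :=
            div_le_div_of_nonneg_right this hG0.le
          have h5 : ((G : ℝ) ^ 2 / 2) / G = G / 2 := by field_simp
          rw [h5] at h4
          linarith
      _ ≤ ∑ j ∈ range G, (e (j * x)).re := sum_le_sum hterm
  have hn : (G : ℝ) / 2 ≤ ‖∑ j ∈ range G, e (j * x)‖ := hre.trans (Complex.re_le_norm _)
  unfold F
  calc (G : ℝ) / 4 = (1 / (G : ℝ)) * (G / 2) ^ 2 := by field_simp; ring
    _ ≤ (1 / (G : ℝ)) * ‖∑ j ∈ range G, e (j * x)‖ ^ 2 := by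
        apply mul_le_mul_of_nonneg_left _ (by positivity)
        exact pow_le_pow_left₀ (by positivity) hn 2

theorem F_sum (G : ℕ) (hG : 1 ≤ G) (A : Finset ℕ) (f : ℕ → ℝ) (B : ℝ)
    (h : ∀ g : ℕ, 1 ≤ g → g < G → ‖∑ m ∈ A, e (g * f m)‖ ≤ B) (hB : 0 ≤ B) :
    |∑ m ∈ A, F G (f m) - A.card| ≤ G * B := by
  have hG0 : (0 : ℝ) < G := by exact_mod_cast hG
  have hGc : (G : ℂ) ≠ 0 := by exact_mod_cast (by omega : G ≠ 0)
  -- expansion
  have hexp : ∀ x : ℝ, ((F G x : ℝ) : ℂ) =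
      (1 / (G : ℂ)) * ∑ j ∈ range G, ∑ l ∈ range G, e (((j : ℝ) - l) * x) := by
    intro x
    unfold F
    push_cast
    congr 1
    rw [← Complex.mul_conj', map_sum, sum_mul_sum]
    apply sum_congr rfl; intro j _
    apply sum_congr rfl; intro l _
    rw [conj_e', ← e_add']
    congr 1; ring
  have hpair : ∀ j ∈ range G, ∀ l ∈ range G,
      ‖(∑ m ∈ A, e (((j : ℝ) - l) * f m)) - (if j = l then (A.card : ℂ) else 0)‖ ≤ B := by
    intro j hj l hl
    have hj' := mem_range.mp hj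
    have hl' := mem_range.mp hl
    rcases lt_trichotomy j l with hjl | hjl | hjl
    · rw [if_neg hjl.ne, sub_zero]
      have h1 := h (l - j) (by omega) (by omega)
      have h2 : (∑ m ∈ A, e (((j : ℝ) - l) * f m)) =
          (starRingEnd ℂ) (∑ m ∈ A, e (((l - j : ℕ) : ℝ) * f m)) := by
        rw [map_sum]
        apply sum_congr rfl; intro m _
        rw [conj_e']
        congr 1
        rw [Nat.cast_sub hjl.le]; ring
      rw [h2, Complex.norm_conj]
      exact h1
    · subst hjl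
      simp only [sub_self, zero_mul, e_zero', sum_const, nsmul_eq_mul, mul_one, if_true, norm_zero]
      exact hB
    · rw [if_neg hjl.ne', sub_zero]
      have h1 := h (j - l) (by omega) (by omega)
      rw [Nat.cast_sub hjl.le] at h1
      exact h1
  have hsum : (((∑ m ∈ A, F G (f m) - A.card : ℝ)) : ℂ) =
      (1 / (G : ℂ)) * ∑ j ∈ range G, ∑ l ∈ range G,
        ((∑ m ∈ A, e (((j : ℝ) - l) * f m)) - (if j = l then (A.card : ℂ) else 0)) := by
    push_cast
    simp only [hexp]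
    rw [← mul_sum]
    have h1 : ∑ m ∈ A, ∑ j ∈ range G, ∑ l ∈ range G, e (((j : ℝ) - l) * f m) =
        ∑ j ∈ range G, ∑ l ∈ range G, ∑ m ∈ A, e (((j : ℝ) - l) * f m) := by
      rw [sum_comm]
      apply sum_congr rfl; intro j _
      rw [sum_comm]
    rw [h1]
    simp only [sum_sub_distrib]
    rw [mul_sub]
    congr 1
    have h2 : ∑ j ∈ range G, ∑ l ∈ range G, (if j = l then (A.card : ℂ) else 0) = G * A.card := by
      have : ∀ j ∈ range G, ∑ l ∈ range G, (if j = l then (A.card : ℂ) else 0) = A.card := by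
        intro j hj
        rw [sum_ite_eq, if_pos hj]
      rw [sum_congr rfl this]
      simp
    rw [h2]
    field_simp
  have hnorm : |∑ m ∈ A, F G (f m) - A.card| =
      ‖(((∑ m ∈ A, F G (f m) - A.card : ℝ)) : ℂ)‖ := by
    rw [Complex.norm_real, Real.norm_eq_abs]
  rw [hnorm, hsum, norm_mul]
  have h3 : ‖∑ j ∈ range G, ∑ l ∈ range G,
        ((∑ m ∈ A, e (((j : ℝ) - l) * f m)) - (if j = l then (A.card : ℂ) else 0))‖ ≤
        (G : ℝ) * (G * B) := by
    calc _ ≤ ∑ j ∈ range G, ‖∑ l ∈ range G,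
        ((∑ m ∈ A, e (((j : ℝ) - l) * f m)) - (if j = l then (A.card : ℂ) else 0))‖ := norm_sum_le _ _
      _ ≤ ∑ j ∈ range G, ∑ l ∈ range G, B := by
          apply sum_le_sum; intro j hj
          exact (norm_sum_le _ _).trans (sum_le_sum (fun l hl => hpair j hj l hl))
      _ = (G : ℝ) * (G * B) := by simp
  have h4 : ‖(1 / (G : ℂ))‖ = 1 / (G : ℝ) := by
    rw [norm_div, norm_one, Complex.norm_natCast]
  rw [h4]
  calc 1 / (G : ℝ) * _ ≤ 1 / (G : ℝ) * ((G : ℝ) * (G * B)) := by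
        apply mul_le_mul_of_nonneg_left h3; positivity
    _ = G * B := by field_simp

end Pool.Agent.Helper564.E451
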