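import Mathlib
import Pool.Agent.Helper923.PPS.Selberg
import Pool.Agent.Helper923.PPS.BT

set_option autoImplicit false

open Finset Nat ArithmeticFunction BoundingSieve

namespace Pool.Agent.Helper564.E451

open Pool.Agent.Helper923.PPS in
/-- The sieve attached to a weighted finite set. -/
noncomputable def wtSieve (A : Finset ℕ) (w : ℕ → ℝ) (hw : ∀ m, 0 ≤ w m) (X : ℝ)
    (R : ℕ) : BoundingSieve where
  support := A
  prodPrimes := PP 1 R
  prodPrimes_squarefree := PP_squarefree 1 R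
  weights := w
  weights_nonneg := hw
  totalMass := X
  nu := invAF
  nu_mult := invAF_mult
  nu_pos_of_prime := by
    intro p hp _
    rw [invAF_apply]
    have : (0 : ℝ) < p := by exact_mod_cast hp.pos
    positivity
  nu_lt_one_of_prime := by
    intro p hp _
    rw [invAF_apply]
    have : (1 : ℝ) < p := by exact_mod_cast hp.one_lt
    exact inv_lt_one_of_one_lt₀ this

open Pool.Agent.Helper923.PPS in
/-- Upper bound sieve for the primes in a weighted finite set. -/
theorem weighted_sieve (A : Finset ℕ) (w : ℕ → ℝ) (hw : ∀ m, 0 ≤ w m) (X E : ℝ)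
    (hX : 0 ≤ X) (hE : 0 ≤ E) (R : ℕ) (hR : 1 ≤ R)
    (h : ∀ q : ℕ, 1 ≤ q → |∑ m ∈ A.filter (fun m => q ∣ m), w m - X / q| ≤ E) :
    ∑ p ∈ A.filter (fun p => p.Prime ∧ R < p), w p ≤
      4 * X / Real.log (R + 1) + E * (R : ℝ) ^ 4 := by
  have hR' : (1 : ℝ) ≤ R := by exact_mod_cast hR
  have hrem : ∀ d : ℕ, d ∣ (wtSieve A w hw X R).prodPrimes → |(wtSieve A w hw X R).rem d| ≤ E := by
    intro d hd
    have hd0 : 0 < d := Nat.pos_of_ne_zero
      (ne_zero_of_dvd_ne_zero (PP_squarefree 1 R).ne_zero hd)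
    have h1 := h d hd0
    simp only [BoundingSieve.rem, BoundingSieve.multSum, wtSieve]
    rw [← Finset.sum_filter, invAF_apply]
    convert h1 using 2
    ring
  have h2 := siftedSum_le_selberg (wtSieve A w hw X R) (R : ℝ) hR' E hE hrem
  have h3 : Real.log ((R : ℝ) + 1) / 4 ≤ selS (wtSieve A w hw X R) R :=
    selS_ge_log (a := 0) (q := 1) (N := 1) (R := R) (Or.inl rfl)
  have hlog : 0 < Real.log ((R : ℝ) + 1) := Real.log_pos (by linarith)
  have h4 : (wtSieve A w hw X R).totalMass / selS (wtSieve A w hw X R) R ≤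
      4 * X / Real.log ((R : ℝ) + 1) := by
    change X / _ ≤ _
    have : X / selS (wtSieve A w hw X R) R ≤ X / (Real.log ((R : ℝ) + 1) / 4) := by
      apply div_le_div_of_nonneg_left hX (by positivity) h3
    refine this.trans (le_of_eq ?_)
    field_simp
  have h5 : (∑ d ∈ (divisors (wtSieve A w hw X R).prodPrimes).filter (fun d : ℕ => (d : ℝ) ≤ R),
      ((wtSieve A w hw X R).nu d)⁻¹) ≤ (R : ℝ) ^ 2 := by
    have h6 : (divisors (wtSieve A w hw X R).prodPrimes).filter (fun d : ℕ => (d : ℝ) ≤ R) ⊆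
        Finset.Icc 1 R := by
      intro d hd
      rw [Finset.mem_filter, Nat.mem_divisors] at hd
      rw [Finset.mem_Icc]
      refine ⟨Nat.pos_of_ne_zero (ne_zero_of_dvd_ne_zero hd.1.2 hd.1.1), by exact_mod_cast hd.2⟩
    calc (∑ d ∈ (divisors (wtSieve A w hw X R).prodPrimes).filter (fun d : ℕ => (d : ℝ) ≤ R),
          ((wtSieve A w hw X R).nu d)⁻¹)
        = ∑ d ∈ (divisors (wtSieve A w hw X R).prodPrimes).filter (fun d : ℕ => (d : ℝ) ≤ R),
          (d : ℝ) := by
          apply Finset.sum_congr rfl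
          intro d _
          change ((d : ℝ)⁻¹)⁻¹ = d
          rw [inv_inv]
      _ ≤ ∑ d ∈ Finset.Icc 1 R, (d : ℝ) :=
          Finset.sum_le_sum_of_subset_of_nonneg h6 (fun _ _ _ => by positivity)
      _ ≤ ∑ d ∈ Finset.Icc 1 R, (R : ℝ) := by
          apply Finset.sum_le_sum
          intro d hd
          exact_mod_cast (Finset.mem_Icc.mp hd).2
      _ = (R : ℝ) ^ 2 := by simp; ring
  have h7 : 0 ≤ (∑ d ∈ (divisors (wtSieve A w hw X R).prodPrimes).filter
      (fun d : ℕ => (d : ℝ) ≤ R), ((wtSieve A w hw X R).nu d)⁻¹) := by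
    apply Finset.sum_nonneg
    intro d _
    change 0 ≤ ((d : ℝ)⁻¹)⁻¹
    positivity
  have h8 : (∑ d ∈ (divisors (wtSieve A w hw X R).prodPrimes).filter
      (fun d : ℕ => (d : ℝ) ≤ R), ((wtSieve A w hw X R).nu d)⁻¹) ^ 2 ≤ (R : ℝ) ^ 4 := by
    calc _ ≤ ((R : ℝ) ^ 2) ^ 2 := by gcongr
      _ = (R : ℝ) ^ 4 := by ring
  have h9 : E * (∑ d ∈ (divisors (wtSieve A w hw X R).prodPrimes).filter
      (fun d : ℕ => (d : ℝ) ≤ R), ((wtSieve A w hw X R).nu d)⁻¹) ^ 2 ≤ E * (R : ℝ) ^ 4 :=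
    mul_le_mul_of_nonneg_left h8 hE
  have h10 : ∑ p ∈ A.filter (fun p => p.Prime ∧ R < p), w p ≤
      (wtSieve A w hw X R).siftedSum := by
    classical
    unfold BoundingSieve.siftedSum
    change _ ≤ ∑ d ∈ A, if Nat.Coprime (PP 1 R) d then w d else 0
    rw [← Finset.sum_filter]
    apply Finset.sum_le_sum_of_subset_of_nonneg
    · intro p hp
      rw [Finset.mem_filter] at hp ⊢
      refine ⟨hp.1, ?_⟩
      rw [Nat.coprime_comm, hp.2.1.coprime_iff_not_dvd, prime_dvd_PP hp.2.1]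
      intro hcon
      exact absurd hcon.1 (not_le.mpr hp.2.2)
    · intro i _ _
      exact hw i
  linarith

end Pool.Agent.Helper564.E451
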