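import Mathlib
import Pool.Agent.Helper564.E451.Fejer
import Pool.Agent.Helper564.E451.Block
import Pool.Agent.Helper564.E451.Sieve

set_option autoImplicit false

open Finset

namespace Pool.Agent.Helper564.E451



/-! The next six statements are proved in other jobs; leave these sorries. -/







theorem card_mult (M H q : ℕ) (hq : 1 ≤ q) :
    |(((Ico M (M + H)).filter (fun m => q ∣ m)).card : ℝ) - (H : ℝ) / q| ≤ 1 := by
  have h := Nat.Ico_filter_modEq_card M (M + H) (r := q) (by omega) 0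
  have e : (Ico M (M + H)).filter (fun m => m ≡ 0 [MOD q]) =
      (Ico M (M + H)).filter (fun m => q ∣ m) := by
    apply Finset.filter_congr
    intro m _
    exact Nat.modEq_zero_iff_dvd
  rw [e] at h
  obtain ⟨c, hc⟩ : ∃ c : ℕ, c = ((Ico M (M + H)).filter (fun m => q ∣ m)).card := ⟨_, rfl⟩
  rw [← hc] at h ⊢
  have hq0 : (0 : ℚ) < q := by exact_mod_cast hq
  have hx : (((M + H : ℕ) : ℚ) - ((0 : ℕ) : ℚ)) / q = (M : ℚ) / q + (H : ℚ) / q := by
    push_cast; ring
  have hx2 : ((M : ℚ) - ((0 : ℕ) : ℚ)) / q = (M : ℚ) / q := by push_cast; ring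
  rw [hx, hx2] at h
  have hy : 0 ≤ (H : ℚ) / q := by positivity
  have a1 := Int.ceil_lt_add_one ((M : ℚ) / q + (H : ℚ) / q)
  have a2 := Int.le_ceil ((M : ℚ) / q + (H : ℚ) / q)
  have a3 := Int.ceil_lt_add_one ((M : ℚ) / q)
  have a4 := Int.le_ceil ((M : ℚ) / q)
  have hmono : ⌈(M : ℚ) / q⌉ ≤ ⌈(M : ℚ) / q + (H : ℚ) / q⌉ := Int.ceil_mono (by linarith)
  have h2 : ((c : ℤ) : ℚ) = (⌈(M : ℚ) / q + (H : ℚ) / q⌉ : ℚ) - (⌈(M : ℚ) / q⌉ : ℚ) := by
    rw [h, max_eq_left (by omega)]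
    push_cast
    ring
  have h3 : |(c : ℚ) - (H : ℚ) / q| ≤ 1 := by
    have h4 : ((c : ℤ) : ℚ) = (c : ℚ) := by norm_cast
    rw [h4] at h2
    rw [h2, abs_le]
    constructor <;> linarith
  have h5 : ((|(c : ℚ) - (H : ℚ) / q| : ℚ) : ℝ) ≤ ((1 : ℚ) : ℝ) := by exact_mod_cast h3
  push_cast at h5
  exact h5

open scoped Classical in
/-- TARGET: primes `p` of a block with `n / p` close to an integer. -/
theorem block_count (D : ℕ) : ∃ C : ℝ, 1 ≤ C ∧ ∀ (G k n H M Q R : ℕ), 1 ≤ G → 1 ≤ n → 1 ≤ Q →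
    1 ≤ R → R < k → 2 * Q ≤ H → H ≤ k → k ≤ M → M ≤ 2 * k →
    ((D + 1).factorial : ℝ) * G * n * Q * (2 * (H : ℝ)) ^ D ≤ (k : ℝ) ^ (D + 2) / 2 →
    (((Ico M (M + H)).filter
        (fun p : ℕ => p.Prime ∧ ∃ z : ℤ, |(n : ℝ) / p - z| ≤ 1 / (4 * G))).card : ℝ) ≤
      (4 / G) * (4 * H / Real.log (R + 1) + (R : ℝ) ^ 4 * (C * G ^ 2 * H *
        (((Q : ℝ) / H + (k : ℝ) ^ (D + 2) * (1 + Real.log H) ^ D /
          (n * (H : ℝ) ^ (D + 1))) ^ ((1 : ℝ) / 2 ^ D) +
        n * (H : ℝ) ^ (D + 2) / (k : ℝ) ^ (D + 3) + 1 / Q))) := by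
  obtain ⟨C0, hC0, hexp⟩ := block_exp_sum D
  refine ⟨C0 + 2, by linarith, ?_⟩
  intro G k n H M Q R hG hn hQ hR hRk hQH hHk hkM hM2k hsmall
  have hGr : (1 : ℝ) ≤ G := by exact_mod_cast hG
  have hnr : (1 : ℝ) ≤ n := by exact_mod_cast hn
  have hQr : (1 : ℝ) ≤ Q := by exact_mod_cast hQ
  have hHr : (2 : ℝ) * Q ≤ H := by exact_mod_cast hQH
  have hHpos : (0 : ℝ) < H := by linarith
  have hkr : (0 : ℝ) < k := by
    have : (H : ℝ) ≤ k := by exact_mod_cast hHk
    linarith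
  have hlog : 0 ≤ 1 + Real.log H := by
    have : 0 ≤ Real.log H := Real.log_nonneg (by linarith)
    linarith
  obtain ⟨T, hT⟩ : ∃ T, T = ((Q : ℝ) / H + (k : ℝ) ^ (D + 2) * (1 + Real.log H) ^ D /
          (n * (H : ℝ) ^ (D + 1))) ^ ((1 : ℝ) / 2 ^ D) := ⟨_, rfl⟩
  obtain ⟨S, hS⟩ : ∃ S, S = n * (H : ℝ) ^ (D + 2) / (k : ℝ) ^ (D + 3) := ⟨_, rfl⟩
  rw [← hT, ← hS]
  have hT0 : 0 ≤ T := by rw [hT]; positivity
  have hS0 : 0 ≤ S := by rw [hS]; positivity
  have hG2 : (G : ℝ) ≤ (G : ℝ) ^ 2 := by nlinarith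
  obtain ⟨E, hE⟩ : ∃ E, E = (C0 + 2) * (G : ℝ) ^ 2 * H * (T + S + 1 / Q) := ⟨_, rfl⟩
  have hE0 : 0 ≤ E := by rw [hE]; positivity
  have hsieve := weighted_sieve (Ico M (M + H)) (fun m => F G ((n : ℝ) / m))
    (fun m => F_nonneg G _) H E hHpos.le hE0 R hR (by
      intro q hq
      have hqr : (1 : ℝ) ≤ q := by exact_mod_cast hq
      have hcard := card_mult M H q hq
      have hHQ1 : 1 ≤ (H : ℝ) * (1 / Q) := by
        rw [mul_one_div, le_div_iff₀ (by linarith)]
        linarith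
      have hHQ : (H : ℝ) * (1 / Q) ≤ (G : ℝ) ^ 2 * H * (1 / Q) := by
        have : 1 * ((H : ℝ) * (1 / Q)) ≤ (G : ℝ) ^ 2 * ((H : ℝ) * (1 / Q)) :=
          mul_le_mul_of_nonneg_right (by nlinarith) (by positivity)
        linarith
      rcases le_or_gt q Q with hqQ | hqQ
      · have hqQr : (q : ℝ) ≤ Q := by exact_mod_cast hqQ
        have hB : ∀ g : ℕ, 1 ≤ g → g < G →
            ‖∑ m ∈ (Ico M (M + H)).filter (fun m => q ∣ m), e (g * ((n : ℝ) / m))‖ ≤
              C0 * H * (T + G * S) := by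
          intro g hg1 hgG
          have hgr : (1 : ℝ) ≤ g := by exact_mod_cast hg1
          have hgGr : (g : ℝ) ≤ G := by exact_mod_cast hgG.le
          refine (hexp k n H q g M hn hg1 hq (by omega) hHk hkM hM2k ?_).trans ?_
          · refine le_trans ?_ hsmall
            gcongr
          · have hT' : ((q : ℝ) / H + (k : ℝ) ^ (D + 2) * (1 + Real.log H) ^ D /
                (g * n * (H : ℝ) ^ (D + 1))) ^ ((1 : ℝ) / 2 ^ D) ≤ T := by
              rw [hT]
              apply Real.rpow_le_rpow (by positivity) _ (by positivity)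
              gcongr
              have : 1 * (n : ℝ) ≤ g * n := mul_le_mul_of_nonneg_right hgr (by linarith)
              linarith
            have hS' : (g : ℝ) * n * (H : ℝ) ^ (D + 2) / (k : ℝ) ^ (D + 3) ≤ G * S := by
              rw [hS]
              have e1 : (g : ℝ) * n * (H : ℝ) ^ (D + 2) / (k : ℝ) ^ (D + 3) =
                g * (n * (H : ℝ) ^ (D + 2) / (k : ℝ) ^ (D + 3)) := by ring
              rw [e1]
              gcongr
            gcongr
        have hFs := F_sum G hG ((Ico M (M + H)).filter (fun m => q ∣ m)) (fun m => (n : ℝ) / m)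
          (C0 * H * (T + G * S)) hB (by positivity)
        have h1 : |∑ m ∈ (Ico M (M + H)).filter (fun m => q ∣ m), F G ((n : ℝ) / m) - (H : ℝ) / q| ≤
            G * (C0 * H * (T + G * S)) + 1 := by
          have := abs_add_le (∑ m ∈ (Ico M (M + H)).filter (fun m => q ∣ m), F G ((n : ℝ) / m) -
            (((Ico M (M + H)).filter (fun m => q ∣ m)).card : ℝ))
            ((((Ico M (M + H)).filter (fun m => q ∣ m)).card : ℝ) - (H : ℝ) / q)
          rw [sub_add_sub_cancel] at this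
          linarith
        refine h1.trans ?_
        rw [hE]
        have h2 : (G : ℝ) * (C0 * H * (T + G * S)) ≤ C0 * (G : ℝ) ^ 2 * H * (T + S) := by
          have e1 : (G : ℝ) * (C0 * H * (T + G * S)) = C0 * H * (G * T + (G : ℝ) ^ 2 * S) := by ring
          have e2 : C0 * (G : ℝ) ^ 2 * H * (T + S) = C0 * H * ((G : ℝ) ^ 2 * T + (G : ℝ) ^ 2 * S) := by
            ring
          rw [e1, e2]
          gcongr
        have h3 : 0 ≤ C0 * (G : ℝ) ^ 2 * H * (1 / Q) := by positivity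
        have h4 : 0 ≤ 2 * (G : ℝ) ^ 2 * H * (T + S) := by positivity
        have e3 : (C0 + 2) * (G : ℝ) ^ 2 * H * (T + S + 1 / Q) =
          C0 * (G : ℝ) ^ 2 * H * (T + S) + C0 * (G : ℝ) ^ 2 * H * (1 / Q) +
          2 * (G : ℝ) ^ 2 * H * (T + S) + 2 * ((G : ℝ) ^ 2 * H * (1 / Q)) := by ring
        rw [e3]
        linarith
      · have hqQr : (Q : ℝ) ≤ q := by exact_mod_cast hqQ.le
        have hHq : (H : ℝ) / q ≤ H * (1 / Q) := by
          rw [mul_one_div]
          gcongr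
        have hHq0 : 0 ≤ (H : ℝ) / q := by positivity
        have hc := (abs_le.mp hcard).2
        have hs0 : 0 ≤ ∑ m ∈ (Ico M (M + H)).filter (fun m => q ∣ m), F G ((n : ℝ) / m) :=
          Finset.sum_nonneg fun m _ => F_nonneg G _
        have hs1 : ∑ m ∈ (Ico M (M + H)).filter (fun m => q ∣ m), F G ((n : ℝ) / m) ≤
            G * (2 * (H * (1 / Q))) := by
          calc ∑ m ∈ (Ico M (M + H)).filter (fun m => q ∣ m), F G ((n : ℝ) / m)
              ≤ ∑ _m ∈ (Ico M (M + H)).filter (fun m => q ∣ m), (G : ℝ) :=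
                Finset.sum_le_sum fun m _ => F_le G _
            _ = G * (((Ico M (M + H)).filter (fun m => q ∣ m)).card : ℝ) := by
                rw [Finset.sum_const, nsmul_eq_mul]; ring
            _ ≤ G * (2 * (H * (1 / Q))) := by
                apply mul_le_mul_of_nonneg_left _ (by linarith)
                linarith
        have h2 : (G : ℝ) * (2 * (H * (1 / Q))) ≤ 2 * ((G : ℝ) ^ 2 * H * (1 / Q)) := by
          have : (G : ℝ) * (H * (1 / Q)) ≤ (G : ℝ) ^ 2 * (H * (1 / Q)) :=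
            mul_le_mul_of_nonneg_right hG2 (by positivity)
          linarith
        have h3 : 2 * ((G : ℝ) ^ 2 * H * (1 / Q)) ≤ E := by
          rw [hE]
          have e3 : (C0 + 2) * (G : ℝ) ^ 2 * H * (T + S + 1 / Q) =
            C0 * (G : ℝ) ^ 2 * H * (T + S) + C0 * (G : ℝ) ^ 2 * H * (1 / Q) +
            2 * (G : ℝ) ^ 2 * H * (T + S) + 2 * ((G : ℝ) ^ 2 * H * (1 / Q)) := by ring
          rw [e3]
          have a1 : 0 ≤ C0 * (G : ℝ) ^ 2 * H * (T + S) := by positivity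
          have a2 : 0 ≤ C0 * (G : ℝ) ^ 2 * H * (1 / Q) := by positivity
          have a3 : 0 ≤ 2 * (G : ℝ) ^ 2 * H * (T + S) := by positivity
          linarith
        rw [abs_le]
        constructor
        · have : (H : ℝ) / q ≤ E := by
            have : (H : ℝ) * (1 / Q) ≤ 2 * ((G : ℝ) ^ 2 * H * (1 / Q)) := by
              have : 0 ≤ (G : ℝ) ^ 2 * H * (1 / Q) := by positivity
              linarith
            linarith
          linarith
        · linarith)
  -- the count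
  have hsub : (Ico M (M + H)).filter
        (fun p : ℕ => p.Prime ∧ ∃ z : ℤ, |(n : ℝ) / p - z| ≤ 1 / (4 * G)) ⊆
      (Ico M (M + H)).filter (fun p => p.Prime ∧ R < p) := by
    intro p hp
    rw [Finset.mem_filter] at hp ⊢
    refine ⟨hp.1, hp.2.1, ?_⟩
    have := (Finset.mem_Ico.mp hp.1).1
    omega
  have hcount : (((Ico M (M + H)).filter
        (fun p : ℕ => p.Prime ∧ ∃ z : ℤ, |(n : ℝ) / p - z| ≤ 1 / (4 * G))).card : ℝ) * (G / 4) ≤
      ∑ p ∈ (Ico M (M + H)).filter (fun p => p.Prime ∧ R < p), F G ((n : ℝ) / p) := by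
    calc _ = ∑ _p ∈ (Ico M (M + H)).filter
              (fun p : ℕ => p.Prime ∧ ∃ z : ℤ, |(n : ℝ) / p - z| ≤ 1 / (4 * G)), (G : ℝ) / 4 := by
          rw [Finset.sum_const, nsmul_eq_mul]
      _ ≤ ∑ p ∈ (Ico M (M + H)).filter
            (fun p : ℕ => p.Prime ∧ ∃ z : ℤ, |(n : ℝ) / p - z| ≤ 1 / (4 * G)),
              F G ((n : ℝ) / p) := by
          refine Finset.sum_le_sum fun p hp => ?_
          rw [Finset.mem_filter] at hp
          obtain ⟨z, hz⟩ := hp.2.2
          exact F_ge G hG _ z hz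
      _ ≤ _ := Finset.sum_le_sum_of_subset_of_nonneg hsub fun p _ _ => F_nonneg G _
  have hfin := hcount.trans hsieve
  have hG4 : (0 : ℝ) < G / 4 := by positivity
  rw [← le_div_iff₀ hG4] at hfin
  refine hfin.trans (le_of_eq ?_)
  rw [hE]
  field_simp

end Pool.Agent.Helper564.E451
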