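import Mathlib

set_option autoImplicit false

open Filter

namespace Pool.Agent.Helper564.E451

lemma ev_log_6767 (C : ℝ) (D : ℕ) (e : ℝ) (he : 0 < e) :
    ∀ᶠ k : ℕ in atTop, C * (1 + Real.log k) ^ D ≤ (k : ℝ) ^ e := by
  have h := (isLittleO_log_rpow_rpow_atTop (D : ℝ) he).comp_tendsto tendsto_natCast_atTop_atTop (k := fun k : ℕ => (k : ℝ))
  have hc : 0 < 1 / ((|C| + 1) * 2 ^ D) := by positivity
  filter_upwards [h.bound hc, eventually_ge_atTop 3] with k hk hk3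
  simp only [Function.comp] at hk
  have hk3' : (3 : ℝ) ≤ k := by exact_mod_cast hk3
  have hlog : 1 ≤ Real.log k := by
    rw [Real.le_log_iff_exp_le (by linarith)]
    have := Real.exp_one_lt_d9
    linarith
  rw [Real.norm_eq_abs, Real.norm_eq_abs, Real.rpow_natCast,
    abs_of_nonneg (by positivity : 0 ≤ Real.log (k : ℝ) ^ D),
    abs_of_nonneg (by positivity : 0 ≤ (k : ℝ) ^ e)] at hk
  have hk' : (|C| + 1) * 2 ^ D * Real.log k ^ D ≤ (k : ℝ) ^ e := by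
    have h2 := mul_le_mul_of_nonneg_left hk (by positivity : 0 ≤ (|C| + 1) * 2 ^ D)
    have h3 : (|C| + 1) * 2 ^ D * (1 / ((|C| + 1) * 2 ^ D) * (k : ℝ) ^ e) = (k : ℝ) ^ e := by
      field_simp
    rw [h3] at h2; exact h2
  calc C * (1 + Real.log k) ^ D ≤ (|C| + 1) * (1 + Real.log k) ^ D := by
        gcongr
        have := le_abs_self C
        linarith
    _ ≤ (|C| + 1) * (2 * Real.log k) ^ D := by gcongr; linarith
    _ = (|C| + 1) * 2 ^ D * Real.log k ^ D := by rw [mul_pow]; ring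
    _ ≤ _ := hk'

/-- Choice of the parameters (pure asymptotics). -/
theorem param (d : ℕ) (hd : 2 ≤ d) : ∃ (D : ℕ) (K : ℝ), 0 < K ∧ ∀ (G : ℕ) (C : ℝ), 1 ≤ G → 1 ≤ C →
    ∀ᶠ k : ℕ in atTop, ∀ n : ℕ, (k : ℝ) ^ ((3 : ℝ) / 2) ≤ n → n ≤ k ^ d → ∃ H Q R : ℕ,
      1 ≤ Q ∧ 1 ≤ R ∧ R < k ∧ 2 * Q ≤ H ∧ 16 * G * H ≤ k ∧
      ((D + 1).factorial : ℝ) * G * n * Q * (2 * (H : ℝ)) ^ D ≤ (k : ℝ) ^ (D + 2) / 2 ∧
      (4 / G) * (4 * H / Real.log (R + 1) + (R : ℝ) ^ 4 * (C * G ^ 2 * H *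
        (((Q : ℝ) / H + (k : ℝ) ^ (D + 2) * (1 + Real.log H) ^ D /
          (n * (H : ℝ) ^ (D + 1))) ^ ((1 : ℝ) / 2 ^ D) +
        n * (H : ℝ) ^ (D + 2) / (k : ℝ) ^ (D + 3) + 1 / Q))) ≤ K / G * H / Real.log k := by
  obtain ⟨D, hD⟩ : ∃ D, D + 1 = 3 * d := ⟨3 * d - 1, by omega⟩
  have hdR : (2 : ℝ) ≤ d := by exact_mod_cast hd
  set θ : ℝ := 1 / (6 * d + 1) with hθ
  have hθ0 : 0 < θ := by positivity
  have hθ1 : θ ≤ 1 / 13 := by
    rw [hθ]; apply one_div_le_one_div_of_le (by norm_num); linarith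
  have hpow1 : (1 : ℝ) ≤ 2 ^ D := one_le_pow₀ (by norm_num)
  set κ : ℝ := θ / (4 * 2 ^ D) with hκ
  have hκ0 : 0 < κ := by positivity
  have hκθ : κ ≤ θ / 4 := by
    rw [hκ]; apply div_le_div_of_nonneg_left hθ0.le (by norm_num); linarith
  refine ⟨D, 129 / κ, by positivity, ?_⟩
  intro G C hG hC
  have hGR : (1 : ℝ) ≤ G := by exact_mod_cast hG
  have ea := eventually_ge_atTop (α := ℕ) 3
  have eb := ev_log_6767 2 0 (2/3 - κ) (by linarith)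
  have ec := ev_log_6767 (32 * G) 0 θ hθ0
  have ed := ev_log_6767 (((D + 1).factorial : ℝ) * G * 4 ^ D * 2) 0 (1/2 - κ) (by linarith)
  have ee := ev_log_6767 2 D (θ/2 - θ/3) (by linarith)
  have ee' := ev_log_6767 2 0 (2/3 - κ - θ/3) (by linarith)
  have ef := ev_log_6767 (2 ^ (3 * d + 1)) 0 (θ/2 - κ) (by linarith)
  have eg := ev_log_6767 2 0 κ hκ0
  have eh := ev_log_6767 (16 * C * G ^ 2 * κ) 1 (κ/2) (by linarith)
  filter_upwards [ea, eb, ec, ed, ee, ee', ef, eg, eh] with k ka kb kc kd ke ke' kf kg kh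
  intro n hn1 hn2
  simp only [pow_zero, mul_one, pow_one] at kb kc kd ke' kf kg kh
  have hk3 : (3 : ℝ) ≤ k := by exact_mod_cast ka
  have hk0 : (0 : ℝ) < k := by linarith
  have hk1 : (1 : ℝ) ≤ k := by linarith
  have hlogk : 0 < Real.log k := Real.log_pos (by linarith)
  have hn0 : (0 : ℝ) < n := lt_of_lt_of_le (by positivity) hn1
  have hn2' : (n : ℝ) ≤ (k : ℝ) ^ d := by exact_mod_cast hn2
  -- S
  set S : ℝ := ((n : ℝ) / k) ^ θ with hS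
  have hnk : (0 : ℝ) < n / k := by positivity
  have hS0 : 0 < S := Real.rpow_pos_of_pos hnk _
  have hSpow : S ^ (6 * d + 1) = n / k := by
    rw [hS, ← Real.rpow_natCast, ← Real.rpow_mul hnk.le]
    have : θ * ((6 * d + 1 : ℕ) : ℝ) = 1 := by
      rw [hθ]; push_cast; field_simp
    rw [this, Real.rpow_one]
  have hnS : (n : ℝ) = k * S ^ (6 * d + 1) := by
    rw [hSpow]; field_simp
  have hSl : (k : ℝ) ^ (θ / 2) ≤ S := by
    have h1 : (k : ℝ) ^ ((1 : ℝ) / 2) ≤ n / k := by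
      rw [le_div_iff₀ hk0]
      calc (k : ℝ) ^ ((1 : ℝ) / 2) * k = (k : ℝ) ^ ((1 : ℝ) / 2) * (k : ℝ) ^ (1 : ℝ) := by rw [Real.rpow_one]
        _ = (k : ℝ) ^ ((3 : ℝ) / 2) := by rw [← Real.rpow_add hk0]; norm_num
        _ ≤ n := hn1
    calc (k : ℝ) ^ (θ / 2) = ((k : ℝ) ^ ((1 : ℝ) / 2)) ^ θ := by
          rw [← Real.rpow_mul hk0.le]; congr 1; ring
      _ ≤ S := Real.rpow_le_rpow (by positivity) h1 hθ0.le
  have hSu : S ≤ (k : ℝ) ^ ((1 : ℝ) / 6) := by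
    have h1 : (n : ℝ) / k ≤ (k : ℝ) ^ ((d : ℝ) - 1) := by
      rw [div_le_iff₀ hk0]
      calc (n : ℝ) ≤ (k : ℝ) ^ d := hn2'
        _ = (k : ℝ) ^ ((d : ℝ) - 1) * (k : ℝ) ^ (1 : ℝ) := by
            rw [← Real.rpow_add hk0, ← Real.rpow_natCast]; congr 1; ring
        _ = _ := by rw [Real.rpow_one]
    calc S ≤ ((k : ℝ) ^ ((d : ℝ) - 1)) ^ θ := Real.rpow_le_rpow hnk.le h1 hθ0.le
      _ = (k : ℝ) ^ (((d : ℝ) - 1) * θ) := by rw [← Real.rpow_mul hk0.le]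
      _ ≤ (k : ℝ) ^ ((1 : ℝ) / 6) := by
          apply Real.rpow_le_rpow_of_exponent_le hk1
          rw [hθ, mul_one_div, div_le_iff₀ (by positivity)]
          linarith
  have hS2 : S ^ 2 ≤ (k : ℝ) ^ ((1 : ℝ) / 3) := by
    calc S ^ 2 ≤ ((k : ℝ) ^ ((1 : ℝ) / 6)) ^ 2 := by gcongr
      _ = _ := by rw [← Real.rpow_natCast, ← Real.rpow_mul hk0.le]; norm_num
  have hS3 : S ^ 3 ≤ (k : ℝ) ^ ((1 : ℝ) / 2) := by
    calc S ^ 3 ≤ ((k : ℝ) ^ ((1 : ℝ) / 6)) ^ 3 := by gcongr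
      _ = _ := by rw [← Real.rpow_natCast, ← Real.rpow_mul hk0.le]; norm_num
  have hS21 : (k : ℝ) ^ θ ≤ S ^ 2 := by
    calc (k : ℝ) ^ θ = ((k : ℝ) ^ (θ / 2)) ^ 2 := by
          rw [← Real.rpow_natCast, ← Real.rpow_mul hk0.le]; congr 1; push_cast; ring
      _ ≤ S ^ 2 := by gcongr
  -- H
  set H : ℕ := ⌈(k : ℝ) / S ^ 2⌉₊ with hH
  have hHl : (k : ℝ) / S ^ 2 ≤ H := Nat.le_ceil _
  have hHu1 : (H : ℝ) < k / S ^ 2 + 1 := Nat.ceil_lt_add_one (by positivity)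
  have h23 : (k : ℝ) ^ ((2 : ℝ) / 3) ≤ k / S ^ 2 := by
    rw [le_div_iff₀ (by positivity)]
    calc (k : ℝ) ^ ((2 : ℝ) / 3) * S ^ 2 ≤ (k : ℝ) ^ ((2 : ℝ) / 3) * (k : ℝ) ^ ((1 : ℝ) / 3) := by gcongr
      _ = k := by rw [← Real.rpow_add hk0]; norm_num
  have h23' : 1 ≤ (k : ℝ) ^ ((2 : ℝ) / 3) := Real.one_le_rpow hk1 (by norm_num)
  have hHu : (H : ℝ) ≤ 2 * (k / S ^ 2) := by linarith
  have hH23 : (k : ℝ) ^ ((2 : ℝ) / 3) ≤ H := h23.trans hHl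
  have hH0 : (0 : ℝ) < H := by linarith
  have hHS1 : (k : ℝ) ≤ H * S ^ 2 := by
    rw [div_le_iff₀ (by positivity)] at hHl; exact hHl
  have hHS2 : (H : ℝ) * S ^ 2 ≤ 2 * k := by
    have := mul_le_mul_of_nonneg_right hHu (by positivity : 0 ≤ S ^ 2)
    calc (H : ℝ) * S ^ 2 ≤ 2 * (k / S ^ 2) * S ^ 2 := this
      _ = 2 * k := by field_simp
  -- Q, R
  set Q : ℕ := ⌊(k : ℝ) ^ κ⌋₊ with hQ
  set R : ℕ := ⌊(k : ℝ) ^ (κ / 8)⌋₊ with hR
  have hkκ1 : 1 ≤ (k : ℝ) ^ κ := Real.one_le_rpow hk1 hκ0.le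
  have hkκ0 : 0 < (k : ℝ) ^ κ := by linarith
  have hkκ8 : 1 ≤ (k : ℝ) ^ (κ / 8) := Real.one_le_rpow hk1 (by linarith)
  have hQ1 : 1 ≤ Q := by rw [hQ]; exact Nat.le_floor (by simpa using hkκ1)
  have hR1 : 1 ≤ R := by rw [hR]; exact Nat.le_floor (by simpa using hkκ8)
  have hQu : (Q : ℝ) ≤ (k : ℝ) ^ κ := Nat.floor_le hkκ0.le
  have hQl : (k : ℝ) ^ κ / 2 ≤ Q := by
    have := Nat.lt_floor_add_one ((k : ℝ) ^ κ)
    have h2 : (k : ℝ) ^ κ < Q + 1 := this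
    linarith
  have hQ0 : (0 : ℝ) < Q := by exact_mod_cast hQ1
  have hRu : (R : ℝ) ≤ (k : ℝ) ^ (κ / 8) := Nat.floor_le (by linarith)
  have hRl : (k : ℝ) ^ (κ / 8) ≤ R + 1 := (Nat.lt_floor_add_one _).le
  have hRk : R < k := by
    have h1 : (k : ℝ) ^ (κ / 8) < (k : ℝ) ^ (1 : ℝ) :=
      Real.rpow_lt_rpow_of_exponent_lt (by linarith) (by linarith)
    rw [Real.rpow_one] at h1
    have : (R : ℝ) < k := lt_of_le_of_lt hRu h1
    exact_mod_cast this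
  have hHk : (H : ℝ) * (16 * G) ≤ k := by
    have h32 : 32 * (G : ℝ) ≤ S ^ 2 := kc.trans hS21
    have h1 : (H : ℝ) * (32 * G) ≤ 2 * k := by
      calc (H : ℝ) * (32 * G) ≤ H * S ^ 2 := by gcongr
        _ ≤ _ := hHS2
    linarith
  have hHlek : (H : ℝ) ≤ k := by
    have : (H : ℝ) * 1 ≤ H * (16 * G) := by gcongr; linarith
    linarith
  refine ⟨H, Q, R, hQ1, hR1, hRk, ?_, ?_, ?_, ?_⟩
  · have h1 : 2 * (k : ℝ) ^ κ ≤ (k : ℝ) ^ ((2 : ℝ) / 3) := by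
      calc 2 * (k : ℝ) ^ κ ≤ (k : ℝ) ^ (2/3 - κ) * (k : ℝ) ^ κ := by gcongr
        _ = _ := by rw [← Real.rpow_add hk0]; congr 1; ring
    have : (2 : ℝ) * Q ≤ H := by linarith
    exact_mod_cast this
  · have : (16 : ℝ) * G * H ≤ k := by linarith
    exact_mod_cast this
  · -- smallness
    have h1 : (n : ℝ) * (2 * (H : ℝ)) ^ D ≤ 4 ^ D * (k : ℝ) ^ (D + 1) * (k : ℝ) ^ ((1 : ℝ) / 2) := by
      have e : (n : ℝ) * (2 * (H : ℝ)) ^ D = k * S ^ 3 * 2 ^ D * (H * S ^ 2) ^ D := by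
        rw [hnS, mul_pow, mul_pow, ← pow_mul]
        have : 6 * d + 1 = 3 + 2 * D := by omega
        rw [this, pow_add]; ring
      rw [e]
      calc k * S ^ 3 * 2 ^ D * (H * S ^ 2) ^ D ≤ k * (k : ℝ) ^ ((1 : ℝ) / 2) * 2 ^ D * (2 * k) ^ D := by gcongr
        _ = _ := by
            rw [mul_pow, show (4 : ℝ) = 2 * 2 by norm_num, mul_pow, pow_succ]; ring
    have h2 : ((D + 1).factorial : ℝ) * G * 4 ^ D * 2 * ((k : ℝ) ^ ((1 : ℝ) / 2) * (k : ℝ) ^ κ) ≤ k := by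
      calc _ ≤ (k : ℝ) ^ (1/2 - κ) * ((k : ℝ) ^ ((1 : ℝ) / 2) * (k : ℝ) ^ κ) := by gcongr
        _ = (k : ℝ) ^ (1 : ℝ) := by rw [← Real.rpow_add hk0, ← Real.rpow_add hk0]; congr 1; ring
        _ = k := Real.rpow_one _
    calc ((D + 1).factorial : ℝ) * G * n * Q * (2 * (H : ℝ)) ^ D
        = ((D + 1).factorial : ℝ) * G * Q * (n * (2 * (H : ℝ)) ^ D) := by ring
      _ ≤ ((D + 1).factorial : ℝ) * G * (k : ℝ) ^ κ * (4 ^ D * (k : ℝ) ^ (D + 1) * (k : ℝ) ^ ((1 : ℝ) / 2)) := by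
          gcongr
      _ = (((D + 1).factorial : ℝ) * G * 4 ^ D * 2 * ((k : ℝ) ^ ((1 : ℝ) / 2) * (k : ℝ) ^ κ)) * (k : ℝ) ^ (D + 1) / 2 := by
          ring
      _ ≤ k * (k : ℝ) ^ (D + 1) / 2 := by gcongr
      _ = _ := by rw [show D + 2 = (D + 1) + 1 by ring, pow_succ (k : ℝ) (D + 1)]; ring
  · -- the main inequality
    have hlogH0 : 0 ≤ Real.log H := Real.log_nonneg (by linarith)
    have hlogHk : Real.log H ≤ Real.log k := Real.log_le_log hH0 hHlek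
    have A1 : (Q : ℝ) / H ≤ (k : ℝ) ^ (-(θ / 3)) / 2 := by
      rw [div_le_iff₀ hH0]
      calc (Q : ℝ) ≤ (k : ℝ) ^ κ := hQu
        _ ≤ (k : ℝ) ^ (-(θ / 3)) / 2 * (k : ℝ) ^ ((2 : ℝ) / 3) := by
            have h1 : 2 * ((k : ℝ) ^ κ * (k : ℝ) ^ (θ / 3)) ≤ (k : ℝ) ^ ((2 : ℝ) / 3) := by
              calc _ ≤ (k : ℝ) ^ (2/3 - κ - θ/3) * ((k : ℝ) ^ κ * (k : ℝ) ^ (θ / 3)) := by gcongr
                _ = _ := by rw [← Real.rpow_add hk0, ← Real.rpow_add hk0]; congr 1; ring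
            have h2 : (k : ℝ) ^ (-(θ / 3)) * (k : ℝ) ^ (θ / 3) = 1 := by
              rw [← Real.rpow_add hk0]; simp
            have h3 := mul_le_mul_of_nonneg_left h1 (by positivity : 0 ≤ (k : ℝ) ^ (-(θ / 3)) / 2)
            calc (k : ℝ) ^ κ = (k : ℝ) ^ κ * ((k : ℝ) ^ (-(θ / 3)) * (k : ℝ) ^ (θ / 3)) := by rw [h2, mul_one]
              _ = (k : ℝ) ^ (-(θ / 3)) / 2 * (2 * ((k : ℝ) ^ κ * (k : ℝ) ^ (θ / 3))) := by ring
              _ ≤ _ := h3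
        _ ≤ (k : ℝ) ^ (-(θ / 3)) / 2 * H := by gcongr
    have hSinv : 1 / S ≤ (k : ℝ) ^ (-(θ / 2)) := by
      rw [Real.rpow_neg hk0.le, ← one_div]
      exact one_div_le_one_div_of_le (by positivity) hSl
    have A2 : (k : ℝ) ^ (D + 2) * (1 + Real.log H) ^ D / (n * (H : ℝ) ^ (D + 1)) ≤ (k : ℝ) ^ (-(θ / 3)) / 2 := by
      have hden : (k : ℝ) ^ (D + 2) * S ≤ n * (H : ℝ) ^ (D + 1) := by
        have e : (n : ℝ) * (H : ℝ) ^ (D + 1) = k * S * (H * S ^ 2) ^ (D + 1) := by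
          rw [hnS, mul_pow, ← pow_mul]
          have : 6 * d + 1 = 1 + 2 * (D + 1) := by omega
          rw [this, pow_add]; ring
        rw [e]
        calc (k : ℝ) ^ (D + 2) * S = k * S * (k : ℝ) ^ (D + 1) := by
              rw [show D + 2 = (D + 1) + 1 by ring, pow_succ (k : ℝ) (D + 1)]; ring
          _ ≤ _ := by gcongr
      calc (k : ℝ) ^ (D + 2) * (1 + Real.log H) ^ D / (n * (H : ℝ) ^ (D + 1))
          ≤ (k : ℝ) ^ (D + 2) * (1 + Real.log k) ^ D / ((k : ℝ) ^ (D + 2) * S) := by gcongr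
        _ = (1 + Real.log k) ^ D * (1 / S) := by field_simp
        _ ≤ (1 + Real.log k) ^ D * (k : ℝ) ^ (-(θ / 2)) := by gcongr
        _ ≤ ((k : ℝ) ^ (θ/2 - θ/3) / 2) * (k : ℝ) ^ (-(θ / 2)) := by gcongr; linarith
        _ = _ := by
            rw [div_mul_eq_mul_div, ← Real.rpow_add hk0]; congr 2; ring
    have A12 : ((Q : ℝ) / H + (k : ℝ) ^ (D + 2) * (1 + Real.log H) ^ D /
          (n * (H : ℝ) ^ (D + 1))) ^ ((1 : ℝ) / 2 ^ D) ≤ (k : ℝ) ^ (-κ) := by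
      calc _ ≤ ((k : ℝ) ^ (-(θ / 3))) ^ ((1 : ℝ) / 2 ^ D) := by
            apply Real.rpow_le_rpow (by positivity) (by linarith) (by positivity)
        _ = (k : ℝ) ^ (-(θ / 3) * (1 / 2 ^ D)) := by rw [← Real.rpow_mul hk0.le]
        _ ≤ _ := by
            apply Real.rpow_le_rpow_of_exponent_le hk1
            have e1 : κ = (θ / 4) * (1 / 2 ^ D) := by rw [hκ]; field_simp
            have e2 : (θ / 4) * (1 / 2 ^ D) ≤ (θ / 3) * (1 / 2 ^ D) := by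
              have : 0 < 1 / (2:ℝ) ^ D := by positivity
              nlinarith
            rw [e1]; linarith
    have A3 : (n : ℝ) * (H : ℝ) ^ (D + 2) / (k : ℝ) ^ (D + 3) ≤ (k : ℝ) ^ (-κ) := by
      have e : (n : ℝ) * (H : ℝ) ^ (D + 2) * S = k * (H * S ^ 2) ^ (D + 2) := by
        rw [hnS, mul_pow, ← pow_mul]
        have : 2 * (D + 2) = (6 * d + 1) + 1 := by omega
        rw [this, pow_succ S (6 * d + 1)]; ring
      have h1 : (n : ℝ) * (H : ℝ) ^ (D + 2) ≤ 2 ^ (D + 2) * (k : ℝ) ^ (D + 3) * (1 / S) := by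
        rw [mul_one_div, le_div_iff₀ hS0, e]
        calc (k : ℝ) * (H * S ^ 2) ^ (D + 2) ≤ k * (2 * k) ^ (D + 2) := by gcongr
          _ = _ := by rw [mul_pow, show D + 3 = (D + 2) + 1 by ring, pow_succ (k : ℝ) (D + 2)]; ring
      rw [div_le_iff₀ (by positivity)]
      calc _ ≤ 2 ^ (D + 2) * (k : ℝ) ^ (D + 3) * (1 / S) := h1
        _ ≤ 2 ^ (D + 2) * (k : ℝ) ^ (D + 3) * (k : ℝ) ^ (-(θ / 2)) := by gcongr
        _ = (2 ^ (3 * d + 1) * (k : ℝ) ^ (-(θ / 2))) * (k : ℝ) ^ (D + 3) := by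
            rw [show 3 * d + 1 = D + 2 by omega]; ring
        _ ≤ ((k : ℝ) ^ (θ/2 - κ) * (k : ℝ) ^ (-(θ / 2))) * (k : ℝ) ^ (D + 3) := by gcongr
        _ = _ := by rw [← Real.rpow_add hk0]; congr 2; ring
    have A4 : 1 / (Q : ℝ) ≤ 2 * (k : ℝ) ^ (-κ) := by
      rw [Real.rpow_neg hk0.le, ← div_eq_mul_inv, div_le_div_iff₀ hQ0 hkκ0]
      linarith
    have hR4 : (R : ℝ) ^ 4 ≤ (k : ℝ) ^ (κ / 2) := by
      calc (R : ℝ) ^ 4 ≤ ((k : ℝ) ^ (κ / 8)) ^ 4 := by gcongr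
        _ = _ := by rw [← Real.rpow_natCast, ← Real.rpow_mul hk0.le]; congr 1; push_cast; ring
    have hlogR : κ / 8 * Real.log k ≤ Real.log (R + 1) := by
      rw [← Real.log_rpow hk0]
      exact Real.log_le_log (by positivity) hRl
    have B1 : 4 * (H : ℝ) / Real.log (R + 1) ≤ 32 / κ * H / Real.log k := by
      calc 4 * (H : ℝ) / Real.log (R + 1) ≤ 4 * (H : ℝ) / (κ / 8 * Real.log k) := by
            apply div_le_div_of_nonneg_left (by positivity) (by positivity) hlogR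
        _ = _ := by field_simp; norm_num
    have B2 : (R : ℝ) ^ 4 * (C * G ^ 2 * H *
        (((Q : ℝ) / H + (k : ℝ) ^ (D + 2) * (1 + Real.log H) ^ D /
          (n * (H : ℝ) ^ (D + 1))) ^ ((1 : ℝ) / 2 ^ D) +
        n * (H : ℝ) ^ (D + 2) / (k : ℝ) ^ (D + 3) + 1 / Q)) ≤ 1 / (4 * κ) * H / Real.log k := by
      have hC0 : 0 < C := by linarith
      calc _ ≤ (k : ℝ) ^ (κ / 2) * (C * G ^ 2 * H * ((k : ℝ) ^ (-κ) + (k : ℝ) ^ (-κ) + 2 * (k : ℝ) ^ (-κ))) := by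
            gcongr
        _ = 4 * C * G ^ 2 * H * ((k : ℝ) ^ (κ / 2) * (k : ℝ) ^ (-κ)) := by ring
        _ = 4 * C * G ^ 2 * H * (k : ℝ) ^ (-(κ / 2)) := by
            rw [← Real.rpow_add hk0]; congr 2; ring
        _ ≤ _ := by
            rw [le_div_iff₀ hlogk, Real.rpow_neg hk0.le]
            have hp : 0 < (k : ℝ) ^ (κ / 2) := by positivity
            have h1 : 16 * C * G ^ 2 * κ * Real.log k ≤ (k : ℝ) ^ (κ / 2) := by
              have : 0 ≤ 16 * C * G ^ 2 * κ := by positivity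
              nlinarith
            have h2 : 4 * C * G ^ 2 * H * ((k : ℝ) ^ (κ / 2))⁻¹ * Real.log k
                = (16 * C * G ^ 2 * κ * Real.log k) * (H / (4 * κ * (k : ℝ) ^ (κ / 2))) := by
              field_simp; norm_num
            rw [h2]
            calc _ ≤ (k : ℝ) ^ (κ / 2) * (H / (4 * κ * (k : ℝ) ^ (κ / 2))) := by gcongr
              _ = _ := by field_simp
    calc _ ≤ (4 / G) * (32 / κ * H / Real.log k + 1 / (4 * κ) * H / Real.log k) := by gcongr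
      _ = _ := by field_simp; norm_num

end Pool.Agent.Helper564.E451
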