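import Mathlib
import Pool.Agent.Helper602.PNT

set_option autoImplicit false

open Finset Filter

namespace Pool.Agent.Helper564.E451

open Topology in
theorem pi_scaledR {α : ℝ} (hα : 0 < α) :
    Tendsto (fun x : ℝ => (Nat.primeCounting ⌊α * x⌋₊ : ℝ) * Real.log x / x) atTop (𝓝 α) := by
  have hx : Tendsto (fun x : ℝ => α * x) atTop atTop :=
    tendsto_id.const_mul_atTop hα
  have h1 := Pool.Agent.Helper602.PNT.pi_tendsto.comp hx
  have h2 : Tendsto (fun x : ℝ => Real.log x / Real.log (α * x)) atTop (𝓝 1) := by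
    have h3 : Tendsto (fun x : ℝ => Real.log α / Real.log x) atTop (𝓝 0) :=
      Tendsto.div_atTop tendsto_const_nhds Real.tendsto_log_atTop
    have h4 : Tendsto (fun x : ℝ => (1 + Real.log α / Real.log x)⁻¹) atTop (𝓝 1) := by
      have := (h3.const_add 1).inv₀ (by simp)
      simpa using this
    refine h4.congr' ?_
    filter_upwards [eventually_gt_atTop 1] with n hn
    have hn0 : (0:ℝ) < n := by linarith
    have hl : Real.log n ≠ 0 := (Real.log_pos hn).ne'
    rw [Real.log_mul hα.ne' hn0.ne']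
    have h6 : 1 + Real.log α / Real.log n = (Real.log α + Real.log n) / Real.log n := by
      field_simp
      ring
    rw [h6, inv_div]
  have h5 := (h1.mul h2).const_mul α
  rw [mul_one, mul_one] at h5
  refine h5.congr' ?_
  filter_upwards [eventually_gt_atTop 0, hx.eventually (eventually_gt_atTop 1)] with n hn hn1
  have hl : Real.log (α * n) ≠ 0 := (Real.log_pos hn1).ne'
  simp only [Function.comp]
  field_simp

theorem card_Ioc_prime (a b : ℕ) (hab : a ≤ b) :
    (((Finset.Ioc a b).filter Nat.Prime).card : ℝ) = (Nat.primeCounting b : ℝ)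
      - Nat.primeCounting a := by
  have hpc : ∀ x : ℕ, Nat.primeCounting x = ((Finset.range (x + 1)).filter Nat.Prime).card := by
    intro x
    rw [Nat.primeCounting, Nat.primeCounting', Nat.count_eq_card_filter_range]
  have hP : (Finset.Ioc a b).filter Nat.Prime = (Finset.range (b + 1)).filter Nat.Prime \
      (Finset.range (a + 1)).filter Nat.Prime := by
    ext p
    simp only [Finset.mem_sdiff, Finset.mem_filter, Finset.mem_range, Finset.mem_Ioc]
    constructor
    · rintro ⟨⟨h1, h2⟩, h3⟩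
      exact ⟨⟨by omega, h3⟩, fun h => by omega⟩
    · rintro ⟨⟨h1, h2⟩, h3⟩
      refine ⟨⟨?_, by omega⟩, h2⟩
      by_contra h
      exact h3 ⟨by omega, h2⟩
  have hsub : (Finset.range (a + 1)).filter Nat.Prime ⊆
      (Finset.range (b + 1)).filter Nat.Prime := by
    refine Finset.filter_subset_filter _ ?_
    exact Finset.range_subset_range.mpr (by omega)
  rw [hP, Finset.card_sdiff_of_subset hsub, hpc, hpc, Nat.cast_sub (Finset.card_le_card hsub)]

open Topology in
theorem diff_tendsto (ε : ℝ) (h0 : 0 < ε) :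
    Tendsto (fun x : ℝ => ((Nat.primeCounting ⌊(1 + ε) * x⌋₊ : ℝ) - Nat.primeCounting ⌊x⌋₊)
      * Real.log x / x) atTop (𝓝 ε) := by
  have h1 := (pi_scaledR (α := 1 + ε) (by linarith)).sub Pool.Agent.Helper602.PNT.pi_tendsto
  have e : 1 + ε - 1 = ε := by ring
  rw [e] at h1
  refine h1.congr fun x => ?_
  ring

theorem pnt_window (η : ℝ) (h0 : 0 < η) (h1 : η ≤ 1) :
    ∀ᶠ k : ℕ in atTop, η / 2 * k / Real.log k ≤
      (((Finset.Ioc k ⌊(1 + η) * k⌋₊).filter Nat.Prime).card : ℝ) := by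
  have h2 := ((diff_tendsto η h0).comp tendsto_natCast_atTop_atTop).eventually
    (lt_mem_nhds (by linarith : η / 2 < η))
  filter_upwards [h2, eventually_gt_atTop 1] with k hk hk1
  have hk0 : (1:ℝ) < k := by exact_mod_cast hk1
  have hl : 0 < Real.log k := Real.log_pos hk0
  have hle : k ≤ ⌊(1 + η) * (k:ℝ)⌋₊ := by
    apply Nat.le_floor
    nlinarith
  rw [card_Ioc_prime _ _ hle]
  simp only [Function.comp, Nat.floor_natCast] at hk
  rw [lt_div_iff₀ (by linarith)] at hk
  rw [div_le_iff₀ hl]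
  exact hk.le

theorem prime_between (ε : ℝ) (h0 : 0 < ε) :
    ∃ x₀ : ℝ, 0 < x₀ ∧ ∀ x : ℝ, x₀ ≤ x → ∃ p : ℕ, p.Prime ∧ x < p ∧ (p : ℝ) ≤ (1 + ε) * x := by
  have h2 := ((diff_tendsto ε h0).eventually (lt_mem_nhds h0)).and (eventually_gt_atTop 1)
  obtain ⟨x₀, hx₀⟩ := eventually_atTop.1 h2
  refine ⟨max x₀ 1, by positivity, fun x hx => ?_⟩
  obtain ⟨h3, h4⟩ := hx₀ x (le_trans (le_max_left _ _) hx)
  have hl : 0 < Real.log x := Real.log_pos h4
  have hle : ⌊x⌋₊ ≤ ⌊(1 + ε) * x⌋₊ := by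
    apply Nat.floor_le_floor
    nlinarith
  rw [lt_div_iff₀ (by linarith), zero_mul] at h3
  have h5 : (0:ℝ) < (Nat.primeCounting ⌊(1 + ε) * x⌋₊ : ℝ) - Nat.primeCounting ⌊x⌋₊ := by
    by_contra h
    push Not at h
    have := mul_nonpos_of_nonpos_of_nonneg h hl.le
    linarith
  rw [← card_Ioc_prime _ _ hle] at h5
  have h6 : 0 < ((Finset.Ioc ⌊x⌋₊ ⌊(1 + ε) * x⌋₊).filter Nat.Prime).card := by exact_mod_cast h5
  obtain ⟨p, hp⟩ := Finset.card_pos.1 h6
  rw [Finset.mem_filter, Finset.mem_Ioc] at hp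
  refine ⟨p, hp.2, ?_, ?_⟩
  · exact (Nat.floor_lt (by linarith)).1 hp.1.1
  · exact (Nat.le_floor_iff (by nlinarith)).1 hp.1.2

end Pool.Agent.Helper564.E451
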