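import Mathlib
import Pool.Agent.Helper564.E451.Pnt

set_option autoImplicit false

open Finset Filter

namespace Pool.Agent.Helper564.E451

/-- no prime of `(k, 2k)` divides `(n-1)(n-2)...(n-k)` -/
def Good (k n : ℕ) : Prop :=
  ∀ p : ℕ, p.Prime → k < p → p < 2 * k → ¬ p ∣ ∏ i ∈ Finset.Icc 1 k, (n - i)


theorem Good.mod {k n : ℕ} (h2 : 2 * k ≤ n) (h : Good k n) {p : ℕ} (hp : p.Prime) (h1 : k < p)
    (h3 : p < 2 * k) : n % p = 0 ∨ k < n % p := by
  by_contra hc
  push Not at hc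
  obtain ⟨ha, hb⟩ := hc
  apply h p hp h1 h3
  have h4 : n % p ∈ Finset.Icc 1 k := Finset.mem_Icc.2 ⟨Nat.one_le_iff_ne_zero.2 ha, hb⟩
  exact (Nat.dvd_sub_mod n).trans (Finset.dvd_prod_of_mem (fun i => n - i) h4)

theorem Good.near {k n : ℕ} (h2 : 2 * k ≤ n) (h : Good k n) (hk : 1 ≤ k) {p : ℕ} (hp : p.Prime)
    (h1 : k < p) (h3 : p < 2 * k) (η : ℝ) (h4 : (p : ℝ) ≤ (1 + η) * k) :
    ∃ z : ℤ, |(n : ℝ) / p - z| ≤ η := by
  have hk0 : (0 : ℝ) < k := by exact_mod_cast hk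
  have hp0 : (0 : ℝ) < p := by exact_mod_cast hp.pos
  have hkp : (k : ℝ) < p := by exact_mod_cast h1
  have hη : 0 < η := by
    by_contra hc
    have : (1 + η) * (k : ℝ) ≤ 1 * k := mul_le_mul_of_nonneg_right (by linarith) hk0.le
    linarith
  have hn : (n : ℝ) = p * ((n / p : ℕ) : ℝ) + ((n % p : ℕ) : ℝ) := by
    exact_mod_cast (Nat.div_add_mod n p).symm
  rcases h.mod h2 hp h1 h3 with hr | hr
  · refine ⟨((n / p : ℕ) : ℤ), ?_⟩
    have e : (n : ℝ) / p - (((n / p : ℕ) : ℤ) : ℝ) = 0 := by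
      rw [hr] at hn
      rw [Int.cast_natCast, hn]
      generalize ((n / p : ℕ) : ℝ) = t
      rw [Nat.cast_zero]
      field_simp
      ring
    rw [e, abs_zero]
    exact hη.le
  · refine ⟨((n / p : ℕ) : ℤ) + 1, ?_⟩
    have hr1 : (k : ℝ) < ((n % p : ℕ) : ℝ) := by exact_mod_cast hr
    have hr2 : ((n % p : ℕ) : ℝ) < p := by exact_mod_cast Nat.mod_lt n hp.pos
    have e : (n : ℝ) / p - ((((n / p : ℕ) : ℤ) + 1 : ℤ) : ℝ) = -((p - ((n % p : ℕ) : ℝ)) / p) := by
      rw [Int.cast_add, Int.cast_natCast, hn]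
      generalize ((n / p : ℕ) : ℝ) = t
      rw [Int.cast_one]
      field_simp
      ring
    rw [e, abs_neg, abs_of_nonneg (div_nonneg (by linarith) hp0.le), div_le_iff₀ hp0]
    have h5 : η * (k : ℝ) ≤ η * p := mul_le_mul_of_nonneg_left hkp.le hη.le
    linarith

theorem small_range (C : ℝ) : ∀ᶠ k : ℕ in atTop, ∀ n : ℕ, 2 * k ≤ n → (n : ℝ) ≤ C * k →
    ¬ Good k n := by
  have hC : 0 < |C| + 1 := by positivity
  obtain ⟨x1, hx1, hp1⟩ := prime_between (1 / 10) (by norm_num)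
  obtain ⟨x2, hx2, hp2⟩ := prime_between (1 / (8 * (|C| + 1))) (by positivity)
  obtain ⟨N1, hN1⟩ := exists_nat_ge x1
  obtain ⟨N2, hN2⟩ := exists_nat_ge x2
  filter_upwards [eventually_ge_atTop (max (max N1 N2) 4)] with k hk n hn hnC hG
  have hkN1 : N1 ≤ k := (le_max_left _ _).trans ((le_max_left _ _).trans hk)
  have hkN2 : N2 ≤ k := (le_max_right _ _).trans ((le_max_left _ _).trans hk)
  have hk4 : 4 ≤ k := (le_max_right _ _).trans hk
  have hkR : (4 : ℝ) ≤ k := by exact_mod_cast hk4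
  have hk1 : x1 ≤ k := hN1.trans (by exact_mod_cast hkN1)
  have hk2 : x2 ≤ k := hN2.trans (by exact_mod_cast hkN2)
  have hnR : 2 * (k : ℝ) ≤ n := by exact_mod_cast hn
  by_cases hcase : (n : ℝ) ≤ 5 / 2 * k
  · obtain ⟨p, hp, hpa, hpb⟩ := hp1 (3 / 2 * k) (by linarith)
    have h1 : k < p := by
      have : (k : ℝ) < p := by linarith
      exact_mod_cast this
    have h3 : p < 2 * k := by
      have : (p : ℝ) < 2 * k := by linarith
      exact_mod_cast this
    have hpn : p ≤ n := by omega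
    have hle : n - p ≤ k := by
      have : (n : ℝ) ≤ k + p := by linarith
      have h4 : n ≤ k + p := by exact_mod_cast this
      omega
    have hge : 1 ≤ n - p := by omega
    apply hG p hp h1 h3
    have h5 : n - p ∈ Finset.Icc 1 k := Finset.mem_Icc.2 ⟨hge, hle⟩
    refine dvd_trans ?_ (Finset.dvd_prod_of_mem (fun i => n - i) h5)
    show p ∣ n - (n - p)
    rw [Nat.sub_sub_self hpn]
  · rw [not_le] at hcase
    have hk0 : (0 : ℝ) < k := by linarith
    set j : ℕ := ⌊(n : ℝ) / k - 1 / 2⌋₊ with hj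
    have hq : (2 : ℝ) ≤ (n : ℝ) / k - 1 / 2 := by
      have : 5 / 2 ≤ (n : ℝ) / k := by
        rw [le_div_iff₀ hk0]
        linarith
      linarith
    have hj2 : 2 ≤ j := by
      rw [hj]
      apply Nat.le_floor
      exact_mod_cast hq
    have hj2R : (2 : ℝ) ≤ j := by exact_mod_cast hj2
    have hjle : (j : ℝ) ≤ (n : ℝ) / k - 1 / 2 := Nat.floor_le (by linarith)
    have hjlt : (n : ℝ) / k - 1 / 2 < j + 1 := Nat.lt_floor_add_one _
    have hj0 : (0 : ℝ) < j := by linarith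
    have a1 : ((j : ℝ) + 1 / 2) * k ≤ n := by
      have : (j : ℝ) + 1 / 2 ≤ (n : ℝ) / k := by linarith
      rwa [le_div_iff₀ hk0] at this
    have a2 : (n : ℝ) < ((j : ℝ) + 3 / 2) * k := by
      have : (n : ℝ) / k < (j : ℝ) + 3 / 2 := by linarith
      rwa [div_lt_iff₀ hk0] at this
    have hjC : (j : ℝ) ≤ |C| := by
      have h1 : (j : ℝ) * k ≤ C * k := by nlinarith
      exact (le_of_mul_le_mul_right h1 hk0).trans (le_abs_self C)
    obtain ⟨p, hp, hpa, hpb⟩ := hp2 (max (k : ℝ) (((n : ℝ) - k) / j)) (hk2.trans (le_max_left _ _))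
    have hxk : (k : ℝ) < p := (le_max_left _ _).trans_lt hpa
    have hxn : ((n : ℝ) - k) / j < p := (le_max_right _ _).trans_lt hpa
    -- upper bound of x
    have b1 : (k : ℝ) ≤ ((n : ℝ) - k / 2) / j := by
      rw [le_div_iff₀ hj0]
      nlinarith
    have b2 : ((n : ℝ) - k) / j ≤ ((n : ℝ) - k / 2) / j := by
      apply div_le_div_of_nonneg_right _ hj0.le
      linarith
    have b3 : max (k : ℝ) (((n : ℝ) - k) / j) ≤ ((n : ℝ) - k / 2) / j := max_le b1 b2
    have b4 : ((n : ℝ) - k / 2) / j ≤ 2 * k := by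
      rw [div_le_iff₀ hj0]
      nlinarith
    have b5 : (p : ℝ) ≤ ((n : ℝ) - k / 2) / j + 1 / (8 * (|C| + 1)) * (2 * k) := by
      have h1 : (1 + 1 / (8 * (|C| + 1))) * max (k : ℝ) (((n : ℝ) - k) / j) ≤
          ((n : ℝ) - k / 2) / j + 1 / (8 * (|C| + 1)) * (2 * k) := by
        rw [add_mul, one_mul]
        apply add_le_add b3
        exact mul_le_mul_of_nonneg_left (b3.trans b4) (by positivity)
      exact hpb.trans h1
    have b6 : (1 / (8 * (|C| + 1)) * (2 * k)) * j ≤ k / 4 := by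
      have h1 : 1 / (8 * (|C| + 1)) * (2 * (k : ℝ)) * j = (k / 4) * (j / (|C| + 1)) := by
        field_simp
        ring
      rw [h1]
      have h2 : (j : ℝ) / (|C| + 1) ≤ 1 := by
        rw [div_le_one hC]
        linarith
      have h3 : (0 : ℝ) ≤ k / 4 := by positivity
      calc (k : ℝ) / 4 * (j / (|C| + 1)) ≤ k / 4 * 1 := mul_le_mul_of_nonneg_left h2 h3
        _ = k / 4 := mul_one _
    have b7 : (p : ℝ) * j ≤ n - 1 := by
      have h1 : (p : ℝ) * j ≤ (((n : ℝ) - k / 2) / j + 1 / (8 * (|C| + 1)) * (2 * k)) * j :=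
        mul_le_mul_of_nonneg_right b5 hj0.le
      rw [add_mul, div_mul_cancel₀ _ hj0.ne'] at h1
      linarith
    have b8 : (n : ℝ) - k < p * j := by
      rwa [div_lt_iff₀ hj0] at hxn
    have h1 : k < p := by exact_mod_cast hxk
    have h3 : p < 2 * k := by
      have : (p : ℝ) < 2 * k := by
        by_contra hc
        have hc' : 2 * (k : ℝ) ≤ p := by linarith
        have h5 : 2 * (k : ℝ) * j ≤ p * j := mul_le_mul_of_nonneg_right hc' hj0.le
        nlinarith
      exact_mod_cast this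
    have c1 : p * j + 1 ≤ n := by
      have : (p : ℝ) * j + 1 ≤ n := by linarith
      exact_mod_cast this
    have c2 : n < p * j + k := by
      have : (n : ℝ) < p * j + k := by linarith
      exact_mod_cast this
    apply hG p hp h1 h3
    have h5 : n - p * j ∈ Finset.Icc 1 k := Finset.mem_Icc.2 ⟨by omega, by omega⟩
    refine dvd_trans ?_ (Finset.dvd_prod_of_mem (fun i => n - i) h5)
    show p ∣ n - (n - p * j)
    rw [Nat.sub_sub_self (by omega)]
    exact Dvd.intro _ rfl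

/-- the set defining `n_k` is nonempty -/
theorem exists_good (k : ℕ) (hk : 1 ≤ k) : ∃ n : ℕ, 2 * k ≤ n ∧ Good k n := by
  let Q : ℕ := ∏ p ∈ (Finset.Ioo k (2 * k)).filter Nat.Prime, p
  have hQ : 0 < Q := Finset.prod_pos (fun p hp => (Finset.mem_filter.1 hp).2.pos)
  refine ⟨2 * k * Q, Nat.le_mul_of_pos_right _ hQ, ?_⟩
  intro p hp h1 h3 hdvd
  rw [hp.prime.dvd_finsetProd_iff] at hdvd
  obtain ⟨i, hi, hd⟩ := hdvd
  rw [Finset.mem_Icc] at hi
  have hpQ : p ∣ 2 * k * Q := by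
    apply Dvd.dvd.mul_left
    exact Finset.dvd_prod_of_mem (fun p => p)
      (Finset.mem_filter.2 ⟨Finset.mem_Ioo.2 ⟨h1, h3⟩, hp⟩)
  have hin : i ≤ 2 * k * Q := by
    have : 2 * k ≤ 2 * k * Q := Nat.le_mul_of_pos_right _ hQ
    omega
  have hpi : p ∣ i := by
    have := (Nat.dvd_sub_iff_right hin hpQ).1 hd
    exact this
  have := Nat.le_of_dvd (by omega) hpi
  omega

end Pool.Agent.Helper564.E451
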