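import Mathlib
import Pool.Agent.Helper564.E451.Small
import Pool.Agent.Helper564.E451.Pnt
import Pool.Agent.Helper564.E451.Count
import Pool.Agent.Helper564.E451.Param

set_option autoImplicit false

open Finset Filter

namespace Pool.Agent.Helper564.E451


/-! The next four statements are proved in other jobs; leave these sorries. -/





/-- TARGET -/
theorem mid_range (d : ℕ) (hd : 2 ≤ d) : ∀ᶠ k : ℕ in atTop, ∀ n : ℕ,
    (k : ℝ) ^ ((3 : ℝ) / 2) ≤ n → n ≤ k ^ d → ¬ Good k n := by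
  classical
  obtain ⟨D, K, hK, hpar⟩ := param d hd
  obtain ⟨C, hC, hblk⟩ := block_count D
  obtain ⟨G, hG⟩ : ∃ G : ℕ, 8 * K + 1 < G := exists_nat_gt _
  have hG0 : (0 : ℝ) < G := by linarith
  have hG1 : 1 ≤ G := by
    have : (0 : ℝ) < G := hG0
    exact_mod_cast this
  have hG1' : (1 : ℝ) ≤ G := by exact_mod_cast hG1
  obtain ⟨η, hη⟩ : ∃ η : ℝ, η = 1 / (4 * G) := ⟨_, rfl⟩
  have hη0 : 0 < η := by rw [hη]; positivity
  have hη1 : η ≤ 1 / 4 := by
    rw [hη]
    apply one_div_le_one_div_of_le (by norm_num)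
    linarith
  filter_upwards [hpar G C hG1 hC, pnt_window η hη0 (by linarith), eventually_ge_atTop 4]
    with k h1 h2 h3
  intro n hn1 hn2 hgood
  have hk4 : (4 : ℝ) ≤ k := by exact_mod_cast h3
  have hk0 : (0 : ℝ) < k := by linarith
  have h2k : 2 * k ≤ n := by
    have e1 : (k : ℝ) ^ ((3 : ℝ) / 2) = k * (k : ℝ) ^ ((1 : ℝ) / 2) := by
      conv_rhs => rw [← Real.rpow_one (k : ℝ), ← Real.rpow_mul hk0.le]
      rw [one_mul, ← Real.rpow_add hk0]
      norm_num
    have e2 : (2 : ℝ) ≤ (k : ℝ) ^ ((1 : ℝ) / 2) := by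
      have : (4 : ℝ) ^ ((1 : ℝ) / 2) ≤ (k : ℝ) ^ ((1 : ℝ) / 2) :=
        Real.rpow_le_rpow (by norm_num) hk4 (by norm_num)
      refine le_trans (le_of_eq ?_) this
      rw [show (4 : ℝ) = 2 ^ (2 : ℝ) by norm_num, ← Real.rpow_mul (by norm_num)]
      norm_num
    have e3 : (2 * k : ℝ) ≤ n := by
      refine le_trans ?_ hn1
      rw [e1]
      nlinarith
    exact_mod_cast e3
  obtain ⟨H, Q, R, hQ, hR, hRk, hQH, hGH, hcond, hbound⟩ := h1 n hn1 hn2
  have hH : 1 ≤ H := by omega
  have hHk : H ≤ k := by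
    have : 1 * H ≤ 16 * G * H := Nat.mul_le_mul_right H (by omega)
    omega
  obtain ⟨N, hN⟩ : ∃ N, N = ⌊(1 + η) * k⌋₊ := ⟨_, rfl⟩
  rw [← hN] at h2
  have hNle : (N : ℝ) ≤ (1 + η) * k := by
    rw [hN]; exact Nat.floor_le (by positivity)
  have hkN : k ≤ N := by
    rw [hN]
    apply Nat.le_floor
    nlinarith
  have hN54 : (N : ℝ) ≤ 5 / 4 * k := by nlinarith
  have hN2 : N + 1 ≤ 2 * k := by
    have : (N : ℝ) + 1 ≤ 2 * k := by linarith
    exact_mod_cast this
  obtain ⟨B, hB⟩ : ∃ B, B = (N - k) / H + 1 := ⟨_, rfl⟩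
  have hiB : ∀ i < B, i * H ≤ N - k := by
    intro i hi
    have : i ≤ (N - k) / H := by omega
    exact (Nat.mul_le_mul_right H this).trans (Nat.div_mul_le_self _ _)
  have hsub : (Ioc k N).filter Nat.Prime ⊆ (range B).biUnion (fun i =>
      (Ico (k + 1 + i * H) (k + 1 + i * H + H)).filter
        (fun p : ℕ => p.Prime ∧ ∃ z : ℤ, |(n : ℝ) / p - z| ≤ 1 / (4 * G))) := by
    intro p hp
    rw [mem_filter, mem_Ioc] at hp
    obtain ⟨⟨hp1, hp2⟩, hpp⟩ := hp
    rw [mem_biUnion]
    refine ⟨(p - k - 1) / H, ?_, ?_⟩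
    · rw [mem_range, hB]
      have : (p - k - 1) / H ≤ (N - k) / H := Nat.div_le_div_right (by omega)
      omega
    · rw [mem_filter, mem_Ico]
      have hdm := Nat.div_add_mod (p - k - 1) H
      have hml : (p - k - 1) % H < H := Nat.mod_lt _ (by omega)
      have hcm : (p - k - 1) / H * H = H * ((p - k - 1) / H) := mul_comm _ _
      refine ⟨⟨by omega, by omega⟩, hpp, ?_⟩
      have hpr : (p : ℝ) ≤ (1 + η) * k := le_trans (by exact_mod_cast hp2) hNle
      have h4 := Good.near h2k hgood (by omega) hpp hp1 (by omega) η hpr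
      rw [hη] at h4
      exact h4
  have hcard1 : (((Ioc k N).filter Nat.Prime).card : ℝ) ≤ B * (K / G * H / Real.log k) := by
    have h5 := (card_le_card hsub).trans card_biUnion_le
    have h6 : (((Ioc k N).filter Nat.Prime).card : ℝ) ≤ ∑ i ∈ range B,
        (((Ico (k + 1 + i * H) (k + 1 + i * H + H)).filter
        (fun p : ℕ => p.Prime ∧ ∃ z : ℤ, |(n : ℝ) / p - z| ≤ 1 / (4 * G))).card : ℝ) := by
      exact_mod_cast h5
    refine h6.trans ?_
    have h7 : ∀ i ∈ range B, (((Ico (k + 1 + i * H) (k + 1 + i * H + H)).filter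
        (fun p : ℕ => p.Prime ∧ ∃ z : ℤ, |(n : ℝ) / p - z| ≤ 1 / (4 * G))).card : ℝ) ≤
        K / G * H / Real.log k := by
      intro i hi
      have hi' := hiB i (mem_range.1 hi)
      refine le_trans (hblk G k n H (k + 1 + i * H) Q R hG1 (by omega) hQ hR hRk hQH hHk
        (by omega) (by omega) hcond) hbound
    refine (sum_le_sum h7).trans (le_of_eq ?_)
    rw [sum_const, card_range, nsmul_eq_mul]
  have hlog : 0 < Real.log k := Real.log_pos (by linarith)
  have hH0 : (0 : ℝ) < H := by exact_mod_cast hH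
  have hBle : (B : ℝ) ≤ η * k / H + 1 := by
    rw [hB]
    push_cast
    have h8 : (((N - k) / H : ℕ) : ℝ) ≤ ((N - k : ℕ) : ℝ) / H := Nat.cast_div_le
    have h9 : ((N - k : ℕ) : ℝ) ≤ η * k := by
      rw [Nat.cast_sub hkN]
      linarith
    have h10 : ((N - k : ℕ) : ℝ) / H ≤ η * k / H := div_le_div_of_nonneg_right h9 hH0.le
    linarith
  have hHη : (H : ℝ) ≤ η * k := by
    have h11 : (16 * G * H : ℝ) ≤ k := by exact_mod_cast hGH
    rw [hη, one_div, inv_mul_eq_div, le_div_iff₀ (by positivity)]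
    nlinarith [mul_pos hG0 hH0]
  have h12 : (B : ℝ) * (K / G * H / Real.log k) ≤ (η * k / H + 1) * (K / G * H / Real.log k) :=
    mul_le_mul_of_nonneg_right hBle (by positivity)
  have h13 : (η * k / H + 1) * (K / G * H / Real.log k) = (η * k + H) * (K / G) / Real.log k := by
    field_simp
  have h14 : K / G < 1 / 8 := by
    rw [div_lt_iff₀ hG0]
    linarith
  have h15 : (η * k + H) * (K / G) < η / 2 * k := by
    have h16 : 0 < η * k := mul_pos hη0 hk0
    have h17 : 0 < K / G := by positivity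
    have h18 : (η * k + H) * (K / G) ≤ (η * k + η * k) * (K / G) :=
      mul_le_mul_of_nonneg_right (by linarith) h17.le
    nlinarith
  have h19 : (η * k + H) * (K / G) / Real.log k < η / 2 * k / Real.log k :=
    div_lt_div_of_pos_right h15 hlog
  rw [h13] at h12
  linarith

end Pool.Agent.Helper564.E451
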